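import Pool.Agent.DST.Abs

/-!
# FLG-D-Gs: a small structure for the `Γ`-solutions of an equivariant quantum connection

`N × N` matrices; `λ` is the equivariant parameter, `z = e^w`, `λ = y z`, `q = e^{2πiy}`.  The same as
`Pool.Agent.DST.GammaGW`, without Gromov-Witten invariants.
-/

open scoped BigOperators Topology
open Filter

namespace Pool.Agent.FLG.Dl

open Pool.Agent.DST Pool.Agent.FLG

/-- The small equivariant quantum connection at a point, in the direction of the grading, with isolated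
fixed points, equivariant `K`-theory, shift operator and `Γ`-solutions. -/
structure GQ (N : ℕ) where
  dim : ℕ
  deg : Fin N → ℕ
  /-- multiplication by the equivariant first Chern class, at the value `x` of `λ` -/
  C : ℂ → Matrix (Fin N) (Fin N) ℂ
  C_hol : ∀ i j, Differentiable ℂ fun x => C x i j
  /-- the graded pieces of `C`; `Cg 0` is the classical multiplication -/
  K : ℕ
  Cg : ℕ → ℂ → Matrix (Fin N) (Fin N) ℂ
  C_graded : ∀ (y w : ℂ) (i j : Fin N), Complex.exp (-w) * C (y * Complex.exp w) i j =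
    ∑ k ∈ Finset.range (K + 1), Complex.exp (-(k * w)) *
      Complex.exp (w * (((dim : ℂ) / 2 - deg i) - ((dim : ℂ) / 2 - deg j))) * Cg k y i j
  /-- the equivariant pairing -/
  g : ℂ → Matrix (Fin N) (Fin N) ℂ
  g_hol : ∀ i j, Differentiable ℂ fun x => g x i j
  g_hom : ∀ (y w : ℂ) (i j : Fin N), g (y * Complex.exp w) i j =
    Complex.exp (w * ((deg i : ℂ) + deg j - dim)) * g y i j
  g_symm : ∀ x, (g x).transpose = g x
  g_det : ∀ x, (g x).det ≠ 0
  C_self : ∀ x, g x * C x = (C x).transpose * g x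
  /-- the tangent weights at the fixed points -/
  wt : Fin N → Fin dim → ℤ
  wt_ne : ∀ p k, wt p k ≠ 0
  /-- the fixed points are numbered by increasing weight of the first Chern class -/
  strict : StrictMono fun p => ∑ k, wt p k
  /-- the restriction of the `a`-th class to the fixed point `p` is `res p a λ^{deg a}` -/
  res : Fin N → Fin N → ℂ
  res_C : ∀ (y : ℂ) (p b : Fin N), ∑ a, res p a * y ^ deg a * Cg 0 y a b =
    (∑ k, (wt p k : ℂ)) * y * (res p b * y ^ deg b)
  localization : ∀ a b, g 1 a b = ∑ p, res p a * res p b / ∏ k, (wt p k : ℂ)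
  /-- the restriction of the point `t ∈ H^2` to the fixed point `p` is `tp p λ` -/
  tp : Fin N → ℂ
  /-- `B i p` is the restriction to `p` of the `i`-th element of a basis of `K_T` over `ℤ[q^{±1}]` -/
  B : Matrix (Fin N) (Fin N) (LaurentPolynomial ℤ)
  B_tri : ∀ i p, p < i → B i p = 0
  B_diag : ∀ p, B p p = ∏ k, if 0 < wt p k then 1 - LaurentPolynomial.T (wt p k) else 1
  /-- the equivariant Euler pairing of the basis -/
  χ : Matrix (Fin N) (Fin N) (LaurentPolynomial ℤ)
  χ_unit : IsUnit χ.det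
  χ_loc : ∀ y : ℂ, y.im ≠ 0 → ∀ i j, evZ y (χ i j) =
    ∑ p, evZ (-y) (B i p) * evZ y (B j p) /
      ∏ k, (1 - Complex.exp (-(2 * Real.pi * Complex.I * y * wt p k)))
  /-- the shift operator `S(λ, z)`, from `λ - z` to `λ` -/
  S : ℂ → ℂ → Matrix (Fin N) (Fin N) ℂ
  S_cd : ∀ i j, ContDiff ℂ 1 fun p : ℂ × ℂ => S p.1 p.2 i j
  S_det : ∀ x z, (S x z).det ≠ 0
  /-- the columns of `J(y, w)` are the solutions attached to the basis of `K_T`, at `λ = y z` -/
  J : ℂ → ℂ → Matrix (Fin N) (Fin N) ℂ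
  J_entire : ∀ i j, Differentiable ℂ fun p : ℂ × ℂ => J p.1 p.2 i j
  J_ode : ∀ y w i j, HasDerivAt (fun w => J y w i j)
    (((Matrix.diagonal (fun a => (dim : ℂ) / 2 - deg a) -
      Complex.exp (-w) • C (y * Complex.exp w)) * J y w) i j) w
  J_shift : ∀ y w, J y w = S (y * Complex.exp w) (Complex.exp w) * J (y - 1) w
  /-- `J = z^θ 𝓜(y, z) z^{-c_1^T} e^{iπ c_1^T} Γ̂ Ch` for `y ∉ ℝ`, with `𝓜 → 1` as `z → ∞` -/
  cal : ℂ → ℂ → Matrix (Fin N) (Fin N) ℂ
  cal_lim : ∀ y : ℂ, y.im ≠ 0 → ∀ i j,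
    Tendsto (fun z => cal y z i j) (Bornology.cobounded ℂ) (𝓝 ((1 : Matrix _ _ ℂ) i j))
  G : ℂ → Matrix (Fin N) (Fin N) ℂ
  G_res : ∀ y : ℂ, y.im ≠ 0 → ∀ p i, ∑ a, res p a * y ^ deg a * G y a i =
    Complex.exp ((tp p + Real.pi * Complex.I * ∑ k, (wt p k : ℂ)) * y) *
      evZ y (B i p) * ∏ k, Complex.Gamma (1 - wt p k * y)
  J_gamma : ∀ y : ℂ, y.im ≠ 0 → ∀ w, J y w =
    NormedSpace.exp (w • Matrix.diagonal (fun a => (dim : ℂ) / 2 - deg a)) *
      cal y (Complex.exp w) * NormedSpace.exp (-w • Cg 0 y) * G y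

end Pool.Agent.FLG.Dl
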