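import Pool.Agent.DSTJ.ToJ

/-!
# FLG-D-ToQ: the entire solutions along the line `ℂ ξ`, for matrix functions
-/

set_option autoImplicit false

open scoped BigOperators Topology
open Filter

namespace Pool.Agent.FLG.Dl

open Pool.Agent.DST.TE Pool.Agent.DST Pool.Agent.DSTJ

variable {m N : ℕ} (D : Fro m N)

theorem exists_JQ (C : ℂ → Matrix (Fin N) (Fin N) ℂ) (hCc : ∀ i j, Continuous fun x => C x i j)
    (S : ℂ → ℂ → Matrix (Fin N) (Fin N) ℂ)
    (hSc : ∀ i j, Continuous fun p : ℂ × ℂ => S p.1 p.2 i j)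
    (hprim : ∀ k, ∀ n : ℤ, ∃ μ : Fin m → ℤ, ∑ i, D.wt k i * μ i = n)
    (hC : ∀ (y w : ℂ) (i j : Fin N),
      Complex.exp (-w) * C (y * Complex.exp w) i j =
        ∑ k ∈ Finset.range (D.K + 1), Complex.exp (-(k * w)) *
          Complex.exp (w * (D.θ i - D.θ j)) * D.C k (fun l => y * (D.ξ l : ℂ)) i j)
    (hS : ∀ y w, D.S D.ξ (fun l => y * (D.ξ l : ℂ)) w = S (y * Complex.exp w) (Complex.exp w)) :
    ∃ (J : ℂ → ℂ → Matrix (Fin N) (Fin N) ℂ) (cal : ℂ → ℂ → Matrix (Fin N) (Fin N) ℂ),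
      (∀ i j, Differentiable ℂ fun p : ℂ × ℂ => J p.1 p.2 i j) ∧
      (∀ y w i j, HasDerivAt (fun w => J y w i j)
        (((Matrix.diagonal D.θ - Complex.exp (-w) • C (y * Complex.exp w)) * J y w) i j) w) ∧
      (∀ y w, J y w = S (y * Complex.exp w) (Complex.exp w) * J (y - 1) w) ∧
      (∀ y : ℂ, y.im ≠ 0 → ∀ i j,
        Tendsto (fun z => cal y z i j) (Bornology.cobounded ℂ) (𝓝 ((1 : Matrix _ _ ℂ) i j))) ∧
      (∀ y : ℂ, y.im ≠ 0 → ∀ w, J y w =
        NormedSpace.exp (w • Matrix.diagonal D.θ) * cal y (Complex.exp w) *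
          NormedSpace.exp (-w • D.C 0 (fun l => y * (D.ξ l : ℂ))) * D.G (fun l => y * (D.ξ l : ℂ))) ∧
      ∀ w, J 0 w = D.J0 D.G 0 w := by
  obtain ⟨Jt, hJ1, hJ2⟩ := exists_Jt D hprim
  have hshift : ∀ y : ℂ, y.im ≠ 0 → ∀ w,
      Jt y w = S (y * Complex.exp w) (Complex.exp w) * Jt (y - 1) w := by
    intro y hy w
    have hy1 : (y - 1).im ≠ 0 := by simpa using hy
    have h1 : (fun l => y * (D.ξ l : ℂ) : Fin m → ℂ) - cc D.ξ = fun l => (y - 1) * (D.ξ l : ℂ) := by
      funext l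
      simp only [Pi.sub_apply, cc]
      ring
    have h2 := D.shift D.ξ (fun l => y * (D.ξ l : ℂ)) (w1_line D hy) (nr_line D hy)
      (by rw [h1]; exact nr_line D hy1) w
    rw [h1] at h2
    rw [hJ2 y (Or.inl hy) w, hJ2 (y - 1) (Or.inl hy1) w, h2, hS]
  refine ⟨Jt, fun y z => D.cal (fun l => y * (D.ξ l : ℂ)) z⁻¹, hJ1, ?_, ?_, ?_, ?_, ?_⟩
  · intro y w i j
    have hR : Continuous fun p : ℂ × ℂ => ((Matrix.diagonal D.θ - Complex.exp (-p.2) •
        C (p.1 * Complex.exp p.2)) * Jt p.1 p.2) i j := by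
      simp only [Matrix.mul_apply, Matrix.sub_apply, Matrix.smul_apply, smul_eq_mul]
      refine continuous_finsetSum _ fun a _ => ?_
      refine (continuous_const.sub ((by fun_prop : Continuous fun p : ℂ × ℂ =>
        Complex.exp (-p.2)).mul ?_)).mul (hJ1 a j).continuous
      exact (hCc i a).comp (by fun_prop : Continuous fun p : ℂ × ℂ => p.1 * Complex.exp p.2)
    refine ode_ext (F := fun p => Jt p.1 p.2 i j) (hJ1 i j) hR (fun y hy w => ?_) y w
    have h1 := D.J0_ode (G := D.G) (nr_line D hy)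
      (fun w => C (y * Complex.exp w)) (hC y) w i j
    have h2 : ∀ w, Jt y w = D.J0 D.G (fun l => y * (D.ξ l : ℂ)) w := hJ2 y (Or.inl hy)
    simp only [h2]
    exact h1
  · intro y w
    ext i j
    refine eq_ext (f := fun y => Jt y w i j) (g := fun y => (S
      (y * Complex.exp w) (Complex.exp w) * Jt (y - 1) w) i j) ?_ ?_ (fun y hy => ?_) y
    · exact (hJ1 i j).continuous.comp (by fun_prop : Continuous fun y : ℂ => (y, w))
    · simp only [Matrix.mul_apply]
      refine continuous_finsetSum _ fun a _ => ?_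
      refine Continuous.mul ?_ ((hJ1 a j).continuous.comp
        (by fun_prop : Continuous fun y : ℂ => (y - 1, w)))
      exact (hSc i a).comp
        (by fun_prop : Continuous fun y : ℂ => (y * Complex.exp w, Complex.exp w))
    · show Jt y w i j = _
      rw [hshift y hy w]
  · intro y hy i j
    exact D.cal_lim (nr_line D hy) i j
  · intro y hy w
    rw [hJ2 y (Or.inl hy) w]
    unfold Base.J0
    rw [Complex.exp_neg]
  · intro w
    rw [hJ2 0 (Or.inr rfl) w]
    congr 1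
    funext l
    simp

end Pool.Agent.FLG.Dl
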