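import Pool.Agent.FLG.D.DPairC

/-!
# FLG-D-DPair: the pairing of the `Γ`-solutions

PLAN. Fix `w` and entries `i j`. Both sides of `gamma_pair` are entire functions of `y`: `T.J_entire`
composed with `y ↦ (-y, w + πi)` and `y ↦ (y, w)`; `T.g (y e^w)` is a polynomial in `y`; the
right side by `evZ_diff`. They agree at `y = iτ`, `τ ≠ 0` real (`pair_imag`). So they agree everywhere:
`AnalyticOnNhd.eq_of_frequently_eq` at the point `0` (`Differentiable.analyticAt`), frequently in
`𝓝[≠] 0` along `iτ`, `τ → 0`.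
`J_det`: the right side has nonzero determinant: `(-2π)^d ≠ 0`, and `(χ.map (evZ y)).det =
evZ y χ.det` (`RingHom.map_det`) is a unit (`χ_unit`). So the product of three determinants is nonzero.
`FG_inv`: for `0 < im y`: `log(-y) = log y - πi`, for `im y < 0`: `log(-y) = log y + πi`
(`Complex.log_neg_eq…`/arguments), so with `w = l - log y`, `y e^w = e^l`:
`J (-y) (w + πi) = FG l' (-y)` with `l' = l` resp. `l' = l + 2πi`, and
`(FG l y)⁻¹ = ((-2π)^d • χ)⁻¹ * (FG l' (-y))ᵀ * g(e^l)` (from `gamma_pair`: `A * F = Y` with `Y` invertible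
gives `F⁻¹ = Y⁻¹ * A`).
-/

open scoped BigOperators Topology
open Filter

namespace Pool.Agent.FLG.Dl

open Pool.Agent.DST Pool.Agent.FLG

variable {N : ℕ} {T : GQ N}

private theorem pair_diff (T : GQ N) (w : ℂ) (i j : Fin N) :
    Differentiable ℂ (fun y : ℂ => ((T.J (-y) (w + Real.pi * Complex.I)).transpose *
      T.g (y * Complex.exp w) * T.J y w) i j) := by
  have h1 : ∀ a b, Differentiable ℂ (fun y : ℂ => T.J y w a b) := by
    intro a b
    have h := T.J_entire a b
    have h2 : Differentiable ℂ (fun y : ℂ => ((y, w) : ℂ × ℂ)) :=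
      differentiable_id.prodMk (differentiable_const w)
    exact h.comp h2
  have h2 : ∀ a b, Differentiable ℂ (fun y : ℂ => T.J (-y) (w + Real.pi * Complex.I) a b) := by
    intro a b
    have h := T.J_entire a b
    have h2 : Differentiable ℂ (fun y : ℂ => ((-y, w + Real.pi * Complex.I) : ℂ × ℂ)) :=
      differentiable_id.neg.prodMk (differentiable_const _)
    exact h.comp h2
  have h3 : ∀ a b, Differentiable ℂ (fun y : ℂ => T.g (y * Complex.exp w) a b) := by
    intro a b
    have h : Differentiable ℂ (fun x : ℂ => T.g x a b) := T.g_hol a b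
    have h2 : Differentiable ℂ (fun y : ℂ => y * Complex.exp w) :=
      differentiable_id.mul_const _
    exact h.comp h2
  simp only [Matrix.mul_apply, Matrix.transpose_apply]
  refine Differentiable.fun_sum fun b _ => ?_
  refine Differentiable.mul ?_ (h1 b j)
  refine Differentiable.fun_sum fun a _ => ?_
  exact (h2 a i).mul (h3 a b)

private theorem log_neg_pos {y : ℂ} (hy : 0 < y.im) :
    Complex.log (-y) = Complex.log y - Real.pi * Complex.I := by
  simp only [Complex.log, norm_neg, Complex.arg_neg_eq_arg_sub_pi_of_im_pos hy]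
  push_cast
  ring

private theorem log_neg_neg {y : ℂ} (hy : y.im < 0) :
    Complex.log (-y) = Complex.log y + Real.pi * Complex.I := by
  simp only [Complex.log, norm_neg, Complex.arg_neg_eq_arg_add_pi_of_im_neg hy]
  push_cast
  ring

private theorem const_ne (d : ℕ) : ((-(2 * Real.pi)) ^ d : ℂ) ≠ 0 := by
  apply pow_ne_zero
  rw [neg_ne_zero]
  have : (Real.pi : ℂ) ≠ 0 := by exact_mod_cast Real.pi_ne_zero
  exact mul_ne_zero two_ne_zero this

private theorem right_det (T : GQ N) (y : ℂ) :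
    (((-(2 * Real.pi)) ^ T.dim : ℂ) • T.χ.map (evZ y)).det ≠ 0 := by
  rw [Matrix.det_smul]
  refine mul_ne_zero (pow_ne_zero _ (const_ne _)) ?_
  have h : (T.χ.map (evZ y)).det = evZ y T.χ.det := (RingHom.map_det (evZ y) T.χ).symm
  rw [h]
  exact (T.χ_unit.map (evZ y)).ne_zero

/-- Block D. The pairing of the `Γ`-solutions. -/
theorem gamma_pair (T : GQ N) (y w : ℂ) :
    (T.J (-y) (w + Real.pi * Complex.I)).transpose * T.g (y * Complex.exp w) * T.J y w =
      ((-(2 * Real.pi)) ^ T.dim : ℂ) • T.χ.map (evZ y) := by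
  ext i j
  have hf := pair_diff T w i j
  have hg : Differentiable ℂ (fun y : ℂ =>
      (((-(2 * Real.pi)) ^ T.dim : ℂ) • T.χ.map (evZ y)) i j) := by
    simp only [Matrix.smul_apply, Matrix.map_apply, smul_eq_mul]
    exact (evZ_diff (T.χ i j)).const_mul _
  have hfa : AnalyticOnNhd ℂ (fun y : ℂ => ((T.J (-y) (w + Real.pi * Complex.I)).transpose *
      T.g (y * Complex.exp w) * T.J y w) i j) Set.univ := fun z _ => hf.analyticAt z
  have hga : AnalyticOnNhd ℂ (fun y : ℂ =>
      (((-(2 * Real.pi)) ^ T.dim : ℂ) • T.χ.map (evZ y)) i j) Set.univ := fun z _ => hg.analyticAt z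
  have hfreq : ∃ᶠ z in 𝓝[≠] (0 : ℂ), (fun y : ℂ =>
      ((T.J (-y) (w + Real.pi * Complex.I)).transpose *
      T.g (y * Complex.exp w) * T.J y w) i j) z = (fun y : ℂ =>
      (((-(2 * Real.pi)) ^ T.dim : ℂ) • T.χ.map (evZ y)) i j) z := by
    have ht : Tendsto (fun τ : ℝ => (τ : ℂ) * Complex.I) (𝓝[≠] 0) (𝓝[≠] (0 : ℂ)) := by
      rw [tendsto_nhdsWithin_iff]
      constructor
      · have h : Continuous (fun τ : ℝ => (τ : ℂ) * Complex.I) := by fun_prop
        have h2 := h.tendsto 0
        simp only [Complex.ofReal_zero, zero_mul] at h2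
        exact h2.mono_left nhdsWithin_le_nhds
      · filter_upwards [self_mem_nhdsWithin] with τ hτ
        have h1 : (τ : ℂ) ≠ 0 := by exact_mod_cast hτ
        exact mul_ne_zero h1 Complex.I_ne_zero
    refine ht.frequently ?_
    have hne : (𝓝[≠] (0 : ℝ)).NeBot := inferInstance
    have hev : ∀ᶠ τ : ℝ in 𝓝[≠] (0 : ℝ), (fun y : ℂ =>
      ((T.J (-y) (w + Real.pi * Complex.I)).transpose *
      T.g (y * Complex.exp w) * T.J y w) i j) ((τ : ℂ) * Complex.I) = (fun y : ℂ =>
      (((-(2 * Real.pi)) ^ T.dim : ℂ) • T.χ.map (evZ y)) i j) ((τ : ℂ) * Complex.I) := by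
      filter_upwards [self_mem_nhdsWithin] with τ hτ
      have := T.pair_imag (τ := τ) hτ w
      exact congrFun (congrFun this i) j
    exact hev.frequently
  have := AnalyticOnNhd.eq_of_frequently_eq hfa hga hfreq
  exact congrFun this y

theorem GQ.J_det (T : GQ N) (y w : ℂ) : (T.J y w).det ≠ 0 := by
  intro h0
  apply right_det T y
  rw [← gamma_pair T y w, Matrix.det_mul, h0, mul_zero]

theorem GQ.FG_inv (T : GQ N) (l : ℂ) {y : ℂ} (hy : y.im ≠ 0) :
    ∃ l' : ℂ, (l' = l ∨ l' = l + 2 * Real.pi * Complex.I) ∧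
      (T.FG l y)⁻¹ = (((-(2 * Real.pi)) ^ T.dim : ℂ) • T.χ.map (evZ y))⁻¹ *
        (T.FG l' (-y)).transpose * T.g (Complex.exp l) := by
  have hy0 : y ≠ 0 := by
    rintro rfl
    simp at hy
  have key : ∀ l' : ℂ, l' - Complex.log (-y) = (l - Complex.log y) + Real.pi * Complex.I →
      (T.FG l y)⁻¹ = (((-(2 * Real.pi)) ^ T.dim : ℂ) • T.χ.map (evZ y))⁻¹ *
        (T.FG l' (-y)).transpose * T.g (Complex.exp l) := by
    intro l' hl'
    apply Matrix.inv_eq_left_inv
    have h := gamma_pair T y (l - Complex.log y)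
    have he : y * Complex.exp (l - Complex.log y) = Complex.exp l := by
      rw [Complex.exp_sub, Complex.exp_log hy0]
      field_simp
    rw [he, ← hl'] at h
    have h2 : (T.FG l' (-y)).transpose * T.g (Complex.exp l) * T.FG l y =
      ((-(2 * Real.pi)) ^ T.dim : ℂ) • T.χ.map (evZ y) := h
    have h3 : (((-(2 * Real.pi)) ^ T.dim : ℂ) • T.χ.map (evZ y))⁻¹ *
        (((-(2 * Real.pi)) ^ T.dim : ℂ) • T.χ.map (evZ y)) = 1 :=
      Matrix.nonsing_inv_mul _ (isUnit_iff_ne_zero.mpr (right_det T y))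
    rw [Matrix.mul_assoc, Matrix.mul_assoc, ← Matrix.mul_assoc (T.FG l' (-y)).transpose, h2, h3]
  rcases lt_or_gt_of_ne hy with h | h
  · refine ⟨l + 2 * Real.pi * Complex.I, Or.inr rfl, key _ ?_⟩
    rw [log_neg_neg h]
    ring
  · refine ⟨l, Or.inl rfl, key _ ?_⟩
    rw [log_neg_pos h]
    ring

end Pool.Agent.FLG.Dl
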