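import Pool.Agent.FLG.D.DGrA
import Pool.Agent.FLG.D.DPair
import Pool.Agent.DST.SLim

/-!
# FLG-D-DGrowth: at most exponential growth on vertical strips

`growth_up`: transport along the segment from `l + |re l|` to `l` (`lin_bound`), starting from
`growth_big`. `gamma_growth`: the inverse is computed by the pairing (`FG_inv`).
-/

open scoped BigOperators Topology
open Filter

namespace Pool.Agent.FLG.Dl

open Pool.Agent.DST Pool.Agent.FLG

variable {N : ℕ} {T : GQ N}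

private theorem dg_mul {A B : Matrix (Fin N) (Fin N) ℂ} {α β : ℝ}
    (hA : ∀ i j, ‖A i j‖ ≤ Real.exp α) (hB : ∀ i j, ‖B i j‖ ≤ Real.exp β) (i j : Fin N) :
    ‖(A * B) i j‖ ≤ Real.exp (N + α + β) := by
  rw [Matrix.mul_apply]
  have h1 : ∀ k ∈ (Finset.univ : Finset (Fin N)), ‖A i k * B k j‖ ≤ Real.exp α * Real.exp β := by
    intro k _
    rw [norm_mul]
    exact mul_le_mul (hA i k) (hB k j) (norm_nonneg _) (Real.exp_pos _).le
  refine (norm_sum_le _ _).trans ((Finset.sum_le_sum h1).trans ?_)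
  rw [Finset.sum_const, Finset.card_univ, Fintype.card_fin, nsmul_eq_mul, Real.exp_add,
    Real.exp_add, mul_assoc]
  refine mul_le_mul_of_nonneg_right ?_ (by positivity)
  have := Real.add_one_le_exp (N : ℝ)
  linarith

private theorem dg_main (T : GQ N) (l l₁ : ℂ) : ∃ K : ℝ, 0 ≤ K ∧ ∀ y : ℂ, y ≠ 0 →
    ∀ i j, ‖(T.J y (l - Complex.log y) * (T.J y (l₁ - Complex.log y))⁻¹) i j‖ ≤
      Real.exp (K * (1 + ‖y‖)) := by
  obtain ⟨w, hw⟩ : ∃ w : ℝ → ℂ, w = fun τ : ℝ => l₁ + (τ : ℂ) * (l - l₁) := ⟨_, rfl⟩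
  have hwc : Continuous w := by
    rw [hw]
    exact continuous_const.add (Complex.continuous_ofReal.mul continuous_const)
  have hex : ∀ i j : Fin N, ∃ K : ℝ, ∀ τ ∈ Set.Icc (0 : ℝ) 1,
      ‖Complex.exp (-(w τ)) * T.C (Complex.exp (w τ)) i j‖ ≤ K := by
    intro i j
    refine isCompact_Icc.exists_bound_of_continuousOn (Continuous.continuousOn ?_)
    refine (Complex.continuous_exp.comp hwc.neg).mul ?_
    exact (T.C_hol i j).continuous.comp (Complex.continuous_exp.comp hwc)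
  choose K hK using hex
  obtain ⟨K', hK'⟩ : ∃ K' : ℝ, K' = ∑ i, ∑ j, (|K i j| + ‖theta T i j‖) := ⟨_, rfl⟩
  have hK'ij : ∀ i j, |K i j| + ‖theta T i j‖ ≤ K' := by
    intro i j
    rw [hK']
    refine (Finset.single_le_sum (f := fun j => |K i j| + ‖theta T i j‖)
      (fun j _ => by positivity) (Finset.mem_univ j)).trans ?_
    exact Finset.single_le_sum (f := fun i => ∑ j, (|K i j| + ‖theta T i j‖))
      (fun i _ => Finset.sum_nonneg fun j _ => by positivity) (Finset.mem_univ i)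
  have hK'0 : 0 ≤ K' := by
    rw [hK']
    exact Finset.sum_nonneg fun i _ => Finset.sum_nonneg fun j _ => by positivity
  refine ⟨N * (‖l - l₁‖ * K'), by positivity, fun y hy i j => ?_⟩
  have hlog : Complex.exp (Complex.log y) = y := Complex.exp_log hy
  obtain ⟨U, hU⟩ : ∃ U : ℝ → Matrix (Fin N) (Fin N) ℂ,
      U = fun τ : ℝ => T.J y (w τ - Complex.log y) * (T.J y (l₁ - Complex.log y))⁻¹ := ⟨_, rfl⟩
  obtain ⟨c, hc⟩ : ∃ c : ℝ → Matrix (Fin N) (Fin N) ℂ, c = fun τ : ℝ =>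
      (l - l₁) • (theta T - (Complex.exp (-(w τ)) * y) •
        T.C (Complex.exp (w τ))) := ⟨_, rfl⟩
  have hw0 : w 0 = l₁ := by
    rw [hw]
    simp
  have hw1 : w 1 = l := by
    rw [hw]
    simp
  have hU0 : U 0 = 1 := by
    rw [hU]
    show T.J y (w 0 - Complex.log y) * (T.J y (l₁ - Complex.log y))⁻¹ = 1
    rw [hw0]
    exact Matrix.mul_nonsing_inv _ (isUnit_iff_ne_zero.2 (T.J_det y _))
  have hder : ∀ τ ∈ Set.Icc (0 : ℝ) 1, ∀ i j,
      HasDerivAt (fun τ => U τ i j) ((c τ * U τ) i j) τ := by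
    intro τ _ i j
    have h1 : HasDerivAt (fun τ : ℝ => w τ - Complex.log y) (l - l₁) τ := by
      rw [hw]
      have h2 : HasDerivAt (fun τ : ℝ => (τ : ℂ)) 1 τ := Complex.ofRealCLM.hasDerivAt
      have h3 := ((h2.mul_const (l - l₁)).const_add l₁).sub_const (Complex.log y)
      rw [one_mul] at h3
      exact h3
    have e1 : Complex.exp (-(w τ - Complex.log y)) = Complex.exp (-(w τ)) * y := by
      rw [show -(w τ - Complex.log y) = -(w τ) + Complex.log y by ring, Complex.exp_add, hlog]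
    have e2 : y * Complex.exp (w τ - Complex.log y) = Complex.exp (w τ) := by
      rw [Complex.exp_sub, hlog]
      field_simp
    have h4 : ∀ k, HasDerivAt (fun τ : ℝ => T.J y (w τ - Complex.log y) i k)
        (((theta T - (Complex.exp (-(w τ)) * y) •
          T.C (Complex.exp (w τ))) *
            T.J y (w τ - Complex.log y)) i k * (l - l₁)) τ := by
      intro k
      have h5 := T.ode y (w τ - Complex.log y) i k
      rw [e1, e2] at h5
      exact h5.comp τ h1
    have h6 : HasDerivAt (fun τ : ℝ => ∑ k, T.J y (w τ - Complex.log y) i k *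
        (T.J y (l₁ - Complex.log y))⁻¹ k j)
        (∑ k, ((theta T - (Complex.exp (-(w τ)) * y) •
          T.C (Complex.exp (w τ))) *
            T.J y (w τ - Complex.log y)) i k * (l - l₁) *
              (T.J y (l₁ - Complex.log y))⁻¹ k j) τ :=
      HasDerivAt.fun_sum fun k _ => (h4 k).mul_const _
    have h7 : (c τ * U τ) i j = ∑ k, ((theta T - (Complex.exp (-(w τ)) * y) •
          T.C (Complex.exp (w τ))) *
            T.J y (w τ - Complex.log y)) i k * (l - l₁) *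
              (T.J y (l₁ - Complex.log y))⁻¹ k j := by
      rw [hc, hU]
      show ((l - l₁) • (theta T - (Complex.exp (-(w τ)) * y) •
        T.C (Complex.exp (w τ))) *
          (T.J y (w τ - Complex.log y) * (T.J y (l₁ - Complex.log y))⁻¹)) i j = _
      rw [← Matrix.mul_assoc, Matrix.mul_apply]
      refine Finset.sum_congr rfl fun k _ => ?_
      rw [Matrix.smul_mul, Matrix.smul_apply, smul_eq_mul]
      ring
    rw [h7, hU]
    exact h6
  have hbd : ∀ τ ∈ Set.Icc (0 : ℝ) 1, ∀ i j, ‖c τ i j‖ ≤ ‖l - l₁‖ * K' * (1 + ‖y‖) := by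
    intro τ hτ i j
    have e3 : c τ i j = (l - l₁) * (theta T i j - y * (Complex.exp (-(w τ)) *
        T.C (Complex.exp (w τ)) i j)) := by
      rw [hc]
      show (l - l₁) * (theta T i j - (Complex.exp (-(w τ)) * y) *
        T.C (Complex.exp (w τ)) i j) = _
      ring
    rw [e3, norm_mul, mul_assoc]
    refine mul_le_mul_of_nonneg_left ?_ (norm_nonneg _)
    refine (norm_sub_le _ _).trans ?_
    rw [norm_mul]
    have h1 := hK'ij i j
    have h2 := (hK i j τ hτ).trans (le_abs_self _)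
    have h3 : ‖y‖ * ‖Complex.exp (-(w τ)) *
        T.C (Complex.exp (w τ)) i j‖ ≤ ‖y‖ * K' := by
      refine mul_le_mul_of_nonneg_left (h2.trans ?_) (norm_nonneg _)
      have := norm_nonneg (theta T i j)
      linarith
    have h4 : ‖theta T i j‖ ≤ K' := by
      have := abs_nonneg (K i j)
      linarith
    linarith
  have hfin := lin_bound c U hder hU0 hbd i j
  have hU1 : U 1 = T.J y (l - Complex.log y) * (T.J y (l₁ - Complex.log y))⁻¹ := by
    rw [hU]
    show T.J y (w 1 - Complex.log y) * (T.J y (l₁ - Complex.log y))⁻¹ = _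
    rw [hw1]
  rw [hU1] at hfin
  refine hfin.trans (le_of_eq ?_)
  congr 1
  ring

private theorem dg_norm {y : ℂ} {a : ℝ} (h1 : |y.re| ≤ a) (h2 : 1 ≤ |y.im|) :
    1 + ‖y‖ ≤ (a + 2) * |y.im| := by
  have h3 := Complex.norm_le_abs_re_add_abs_im y
  have h4 : 0 ≤ a := (abs_nonneg _).trans h1
  nlinarith

theorem GQ.growth_up (T : GQ N) (l : ℂ) (a : ℝ) : ∃ C : ℝ,
    ∀ y : ℂ, |y.re| ≤ a → 1 ≤ |y.im| → ∀ i j, ‖T.FG l y i j‖ ≤ Real.exp (C * |y.im|) := by
  obtain ⟨l₁, hl₁⟩ : ∃ l₁ : ℂ, l₁ = l + (|l.re| : ℝ) := ⟨_, rfl⟩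
  have hre : 0 ≤ l₁.re := by
    rw [hl₁, Complex.add_re, Complex.ofReal_re]
    linarith [neg_abs_le l.re]
  obtain ⟨C₁, hC₁⟩ := T.growth_big hre a
  obtain ⟨K, hK0, hK⟩ := dg_main T l l₁
  refine ⟨N + K * (a + 2) + C₁, fun y hy1 hy2 i j => ?_⟩
  have hy0 : y ≠ 0 := by
    rintro rfl
    simp at hy2
    linarith
  have e1 : T.FG l y = T.J y (l - Complex.log y) * (T.J y (l₁ - Complex.log y))⁻¹ *
      T.FG l₁ y := by
    show T.J y (l - Complex.log y) = T.J y (l - Complex.log y) *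
      (T.J y (l₁ - Complex.log y))⁻¹ * T.J y (l₁ - Complex.log y)
    rw [Matrix.mul_assoc, Matrix.nonsing_inv_mul _ (isUnit_iff_ne_zero.2 (T.J_det y _)),
      Matrix.mul_one]
  rw [e1]
  refine (dg_mul (hK y hy0) (hC₁ y hy1 hy2) i j).trans (Real.exp_le_exp.2 ?_)
  have h1 := mul_le_mul_of_nonneg_left (dg_norm hy1 hy2) hK0
  have h2 : (0 : ℝ) ≤ N := Nat.cast_nonneg N
  nlinarith

/-- Block D. At most exponential growth on vertical strips, for every `λ = e^l`. -/
theorem gamma_growth (T : GQ N) (l : ℂ) (a : ℝ) : ∃ C : ℝ, ∀ y : ℂ, |y.re| ≤ a →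
    1 ≤ |y.im| → ∀ i j, ‖T.J y (l - Complex.log y) i j‖ ≤ Real.exp (C * |y.im|) ∧
      ‖(T.J y (l - Complex.log y))⁻¹ i j‖ ≤ Real.exp (C * |y.im|) := by
  obtain ⟨C₁, hC₁⟩ := T.growth_up l a
  obtain ⟨C₂, hC₂⟩ := T.growth_up (l + 2 * Real.pi * Complex.I) a
  have hχ : ∀ i j : Fin N, ∃ C : ℝ, ∀ y : ℂ, 1 ≤ |y.im| →
      ‖evZ y (T.χ⁻¹ i j)‖ ≤ Real.exp (C * |y.im|) := fun i j => evZ_growth (T.χ⁻¹ i j)
  choose C₃ hC₃ using hχ
  obtain ⟨D, hD⟩ : ∃ D : ℝ, D = ∑ i, ∑ j, |C₃ i j| := ⟨_, rfl⟩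
  have hDij : ∀ i j, C₃ i j ≤ D := by
    intro i j
    rw [hD]
    refine (le_abs_self _).trans ?_
    refine (Finset.single_le_sum (f := fun j => |C₃ i j|)
      (fun j _ => abs_nonneg _) (Finset.mem_univ j)).trans ?_
    exact Finset.single_le_sum (f := fun i => ∑ j, |C₃ i j|)
      (fun i _ => Finset.sum_nonneg fun j _ => abs_nonneg _) (Finset.mem_univ i)
  obtain ⟨E, hE⟩ : ∃ E : ℝ, E = ∑ i, ∑ j, ‖T.g (Complex.exp l) i j‖ := ⟨_, rfl⟩
  have hE0 : 0 ≤ E := by
    rw [hE]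
    exact Finset.sum_nonneg fun i _ => Finset.sum_nonneg fun j _ => norm_nonneg _
  have hEij : ∀ i j, ‖T.g (Complex.exp l) i j‖ ≤ Real.exp E := by
    intro i j
    have h1 : ‖T.g (Complex.exp l) i j‖ ≤ E := by
      rw [hE]
      refine (Finset.single_le_sum (f := fun j => ‖T.g (Complex.exp l) i j‖)
        (fun j _ => norm_nonneg _) (Finset.mem_univ j)).trans ?_
      exact Finset.single_le_sum (f := fun i => ∑ j, ‖T.g (Complex.exp l) i j‖)
        (fun i _ => Finset.sum_nonneg fun j _ => norm_nonneg _) (Finset.mem_univ i)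
    have := Real.add_one_le_exp E
    linarith
  refine ⟨max C₁ (N + (N + D + max C₁ C₂) + E), fun y hy1 hy2 i j => ?_⟩
  have hs : 0 ≤ |y.im| := abs_nonneg _
  have hN0 : (0 : ℝ) ≤ N := Nat.cast_nonneg N
  constructor
  · refine (hC₁ y hy1 hy2 i j).trans (Real.exp_le_exp.2 ?_)
    exact mul_le_mul_of_nonneg_right (le_max_left _ _) hs
  · have hyim : y.im ≠ 0 := by
      intro h0
      rw [h0, abs_zero] at hy2
      linarith
    obtain ⟨l', hl', hinv⟩ := T.FG_inv l hyim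
    have hinv' : (T.J y (l - Complex.log y))⁻¹ =
        (((-(2 * Real.pi)) ^ T.dim : ℂ) • T.χ.map (evZ y))⁻¹ *
          (T.FG l' (-y)).transpose * T.g (Complex.exp l) := hinv
    have hk0 : ((-(2 * Real.pi)) ^ T.dim : ℂ) ≠ 0 := by
      refine pow_ne_zero _ (neg_ne_zero.2 (mul_ne_zero two_ne_zero ?_))
      exact_mod_cast Real.pi_ne_zero
    have hχinv : (((-(2 * Real.pi)) ^ T.dim : ℂ) • T.χ.map (evZ y))⁻¹ =
        (((-(2 * Real.pi)) ^ T.dim : ℂ))⁻¹ • T.χ⁻¹.map (evZ y) := by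
      refine Matrix.inv_eq_right_inv ?_
      rw [Matrix.smul_mul, Matrix.mul_smul, smul_smul, mul_inv_cancel₀ hk0, one_smul,
        ← Matrix.map_mul, Matrix.mul_nonsing_inv _ T.χ_unit,
        Matrix.map_one _ (map_zero _) (map_one _)]
    have hk1 : ‖(((-(2 * Real.pi)) ^ T.dim : ℂ))⁻¹‖ ≤ 1 := by
      rw [norm_inv, norm_pow, norm_neg, norm_mul]
      refine inv_le_one_of_one_le₀ (one_le_pow₀ ?_)
      rw [Complex.norm_real, Real.norm_of_nonneg Real.pi_pos.le]
      have h2 : ‖(2 : ℂ)‖ = 2 := by simp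
      rw [h2]
      have := Real.pi_gt_three
      linarith
    have hb1 : ∀ i j, ‖(((-(2 * Real.pi)) ^ T.dim : ℂ) • T.χ.map (evZ y))⁻¹ i j‖ ≤
        Real.exp (D * |y.im|) := by
      intro i j
      rw [hχinv]
      show ‖(((-(2 * Real.pi)) ^ T.dim : ℂ))⁻¹ * evZ y (T.χ⁻¹ i j)‖ ≤ _
      rw [norm_mul]
      have h1 := (hC₃ i j y hy2).trans (Real.exp_le_exp.2
        (mul_le_mul_of_nonneg_right (hDij i j) hs))
      calc ‖(((-(2 * Real.pi)) ^ T.dim : ℂ))⁻¹‖ * ‖evZ y (T.χ⁻¹ i j)‖ ≤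
          1 * Real.exp (D * |y.im|) := mul_le_mul hk1 h1 (norm_nonneg _) zero_le_one
        _ = _ := one_mul _
    have hre' : |(-y).re| ≤ a := by
      rw [Complex.neg_re, abs_neg]
      exact hy1
    have him' : 1 ≤ |(-y).im| := by
      rw [Complex.neg_im, abs_neg]
      exact hy2
    have hb2 : ∀ i j, ‖(T.FG l' (-y)).transpose i j‖ ≤ Real.exp (max C₁ C₂ * |y.im|) := by
      intro i j
      rw [Matrix.transpose_apply]
      have e : |(-y).im| = |y.im| := by rw [Complex.neg_im, abs_neg]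
      rcases hl' with h | h
      · have h1 := hC₁ (-y) hre' him' j i
        rw [h]
        rw [e] at h1
        exact h1.trans (Real.exp_le_exp.2 (mul_le_mul_of_nonneg_right (le_max_left _ _) hs))
      · have h1 := hC₂ (-y) hre' him' j i
        rw [h]
        rw [e] at h1
        exact h1.trans (Real.exp_le_exp.2 (mul_le_mul_of_nonneg_right (le_max_right _ _) hs))
    rw [hinv']
    refine (dg_mul (dg_mul hb1 hb2) hEij i j).trans (Real.exp_le_exp.2 ?_)
    have h3 : (N + (N + D + max C₁ C₂) + E) * |y.im| ≤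
        max C₁ (N + (N + D + max C₁ C₂) + E) * |y.im| :=
      mul_le_mul_of_nonneg_right (le_max_right _ _) hs
    refine le_trans ?_ h3
    nlinarith

end Pool.Agent.FLG.Dl
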