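import Pool.Agent.DST.FToC
import Pool.Agent.FLG.D.DPair
import Pool.Agent.FLG.D.DGrowth
import Pool.Agent.FLG.D.DBase

/-!
# FLG-D-FQ: the quantum system of the `Γ`-solutions

-/

open scoped BigOperators Topology
open Filter

namespace Pool.Agent.FLG.Dl

open Pool.Agent.DST Pool.Agent.FLG

variable {N : ℕ} {T : GQ N}

/-- The normalising constant. -/
private noncomputable def cst (T : GQ N) : ℂ :=
  (Complex.I / (Real.sqrt (2 * Real.pi) : ℂ)) ^ T.dim

private theorem base_ne : (Complex.I / (Real.sqrt (2 * Real.pi) : ℂ)) ≠ 0 := by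
  have h : (Real.sqrt (2 * Real.pi) : ℂ) ≠ 0 := by
    have h1 : Real.sqrt (2 * Real.pi) ≠ 0 := (Real.sqrt_pos.mpr (by positivity)).ne'
    exact_mod_cast h1
  exact div_ne_zero Complex.I_ne_zero h

private theorem cst_ne (T : GQ N) : cst T ≠ 0 := pow_ne_zero _ base_ne

private theorem base_sq : (Complex.I / (Real.sqrt (2 * Real.pi) : ℂ)) ^ 2 *
    (-(2 * Real.pi) : ℂ) = 1 := by
  have h : ((Real.sqrt (2 * Real.pi) : ℝ) : ℂ) ^ 2 = 2 * Real.pi := by
    have h1 : Real.sqrt (2 * Real.pi) ^ 2 = 2 * Real.pi := Real.sq_sqrt (by positivity)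
    exact_mod_cast h1
  have hpi : (Real.pi : ℂ) ≠ 0 := by exact_mod_cast Real.pi_ne_zero
  rw [div_pow, Complex.I_sq, h]
  field_simp

private theorem cst_sq (T : GQ N) :
    cst T * cst T * ((-(2 * Real.pi)) ^ T.dim : ℂ) = 1 := by
  unfold cst
  rw [← mul_pow, ← mul_pow, ← pow_two, base_sq, one_pow]

private theorem norm_cst_le (T : GQ N) : ‖cst T‖ ≤ 1 := by
  unfold cst
  rw [norm_pow]
  refine pow_le_one₀ (norm_nonneg _) ?_
  rw [norm_div, Complex.norm_I, Complex.norm_real, Real.norm_of_nonneg (Real.sqrt_nonneg _)]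
  have h1 : (1 : ℝ) ≤ Real.sqrt (2 * Real.pi) := by
    rw [Real.le_sqrt' one_pos]
    nlinarith [Real.pi_gt_three]
  rw [div_le_one (by linarith)]
  exact h1

private theorem inv_smul' (c : ℂ) (hc : c ≠ 0) (M : Matrix (Fin N) (Fin N) ℂ) :
    (c • M)⁻¹ = c⁻¹ • M⁻¹ := by
  by_cases hM : IsUnit M.det
  · apply Matrix.inv_eq_right_inv
    rw [Matrix.smul_mul, Matrix.mul_smul, smul_smul, mul_inv_cancel₀ hc, one_smul,
      Matrix.mul_nonsing_inv _ hM]
  · have h1 : ¬ IsUnit (c • M).det := by
      rw [Matrix.det_smul]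
      intro h
      exact hM (isUnit_of_mul_isUnit_right h)
    rw [Matrix.nonsing_inv_apply_not_isUnit _ h1, Matrix.nonsing_inv_apply_not_isUnit _ hM,
      smul_zero]

private theorem map_toC (M : Matrix (Fin N) (Fin N) (LaurentPolynomial ℤ)) (y : ℂ) :
    (M.map toC).map (evq y) = M.map (evZ y) := by
  ext i j
  exact evq_toC y (M i j)

private theorem g_homD (T : GQ N) (x : ℂ) (i j : Fin N) :
    x * deriv (fun x => T.g x i j) x =
      -(((T.dim : ℂ) / 2 - T.deg i) + ((T.dim : ℂ) / 2 - T.deg j)) * T.g x i j := by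
  have h1 : HasDerivAt (fun x => T.g x i j) (deriv (fun x => T.g x i j) x) (x * Complex.exp 0) := by
    rw [Complex.exp_zero, mul_one]
    exact (T.g_hol i j x).hasDerivAt
  have h2 : HasDerivAt (fun w : ℂ => x * Complex.exp w) (x * Complex.exp 0) 0 :=
    (Complex.hasDerivAt_exp 0).const_mul x
  have h3 := HasDerivAt.comp (0 : ℂ) h1 h2
  have h4 : ((fun x => T.g x i j) ∘ fun w : ℂ => x * Complex.exp w) = fun w =>
      Complex.exp (w * ((T.deg i : ℂ) + T.deg j - T.dim)) * T.g x i j := by
    funext w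
    exact T.g_hom x w i j
  have h5 : HasDerivAt (fun w : ℂ => w * ((T.deg i : ℂ) + T.deg j - T.dim))
      (1 * ((T.deg i : ℂ) + T.deg j - T.dim)) 0 := (hasDerivAt_id (0 : ℂ)).mul_const _
  have h6 := h5.cexp.mul_const (T.g x i j)
  rw [h4] at h3
  have h7 := h3.unique h6
  rw [Complex.exp_zero, mul_one, zero_mul, Complex.exp_zero, one_mul, one_mul] at h7
  rw [mul_comm, h7]
  ring

theorem exists_Q (T : GQ N) : ∃ Q : QSys N, IsQ T Q := by
  refine ⟨{ Λ := Set.univ
            open_Λ := isOpen_univ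
            θ := fun a => (T.dim : ℂ) / 2 - T.deg a
            C := fun x => T.C x
            g := fun x => T.g x
            S := fun x z => T.S x z
            J := fun y w => cst T • T.J y w
            χ := T.χ.map toC
            C_hol := fun x _ i j => T.C_hol i j x
            g_hol := fun x _ i j => (T.g_hol i j x).hasDerivAt
            g_hom := fun x _ i j => g_homD T x i j
            g_symm := fun x _ => T.g_symm x
            g_det := fun x _ => T.g_det x
            C_self := fun x _ => T.C_self x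
            S_hol := fun x _ z _ i j => ((T.S_cd i j).differentiable one_ne_zero) (x, z)
            S_det := fun x _ z _ => T.S_det x z
            J_hol := ?_
            J_ode := ?_
            J_shift := ?_
            J_pair := ?_
            J_growth := ?_
            χ_det := ?_
            χ_int := fun i j => intL_toC _ }, ?_⟩
  · intro y w _ i j
    exact (T.J_entire i j (y, w)).const_smul (cst T)
  · intro y w _ i j
    have h := (T.ode y w i j).const_mul (cst T)
    have h2 : ((Matrix.diagonal (fun a => (T.dim : ℂ) / 2 - T.deg a) -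
        Complex.exp (-w) • T.C (y * Complex.exp w)) *
          (cst T • T.J y w)) i j = cst T * ((theta T -
        Complex.exp (-w) • T.C (y * Complex.exp w)) *
          T.J y w) i j := by
      rw [Matrix.mul_smul]
      rfl
    rw [h2]
    exact h
  · intro y w _ _
    show cst T • T.J y w = _ * (cst T • T.J (y - 1) w)
    rw [Matrix.mul_smul, ← T.J_shift y w]
  · intro y w _
    show (cst T • T.J (-y) (w + Real.pi * Complex.I)).transpose *
      T.g (y * Complex.exp w) * (cst T • T.J y w) = (T.χ.map toC).map (evq y)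
    rw [map_toC, Matrix.transpose_smul, Matrix.smul_mul, Matrix.smul_mul, Matrix.mul_smul,
      gamma_pair, smul_smul, smul_smul, cst_sq, one_smul]
  · intro l _ a
    obtain ⟨C, hC⟩ := gamma_growth T l a
    refine ⟨max C (C + Real.log ‖(cst T)⁻¹‖), fun y hy hy1 i j => ⟨?_, ?_⟩⟩
    · have h1 := (hC y hy hy1 i j).1
      have h2 : ‖(cst T • T.J y (l - Complex.log y)) i j‖ ≤ ‖T.J y (l - Complex.log y) i j‖ := by
        rw [Matrix.smul_apply, smul_eq_mul, norm_mul]
        exact mul_le_of_le_one_left (norm_nonneg _) (norm_cst_le T)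
      refine h2.trans (h1.trans (Real.exp_le_exp.mpr ?_))
      exact mul_le_mul_of_nonneg_right (le_max_left _ _) (abs_nonneg _)
    · have h1 := (hC y hy hy1 i j).2
      have hpos : 0 < ‖(cst T)⁻¹‖ := norm_pos_iff.mpr (inv_ne_zero (cst_ne T))
      have hlog : 0 ≤ Real.log ‖(cst T)⁻¹‖ := by
        apply Real.log_nonneg
        rw [norm_inv]
        exact (one_le_inv₀ (norm_pos_iff.mpr (cst_ne T))).mpr (norm_cst_le T)
      show ‖(cst T • T.J y (l - Complex.log y))⁻¹ i j‖ ≤ _
      rw [inv_smul' _ (cst_ne T), Matrix.smul_apply, smul_eq_mul, norm_mul]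
      calc ‖(cst T)⁻¹‖ * ‖(T.J y (l - Complex.log y))⁻¹ i j‖
          ≤ ‖(cst T)⁻¹‖ * Real.exp (C * |y.im|) := mul_le_mul_of_nonneg_left h1 hpos.le
        _ = Real.exp (Real.log ‖(cst T)⁻¹‖ + C * |y.im|) := by
            rw [Real.exp_add, Real.exp_log hpos]
        _ ≤ Real.exp (max C (C + Real.log ‖(cst T)⁻¹‖) * |y.im|) := by
            apply Real.exp_le_exp.mpr
            have h3 : Real.log ‖(cst T)⁻¹‖ ≤ Real.log ‖(cst T)⁻¹‖ * |y.im| :=
              le_mul_of_one_le_right hlog hy1
            have h4 : (C + Real.log ‖(cst T)⁻¹‖) * |y.im| ≤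
                max C (C + Real.log ‖(cst T)⁻¹‖) * |y.im| :=
              mul_le_mul_of_nonneg_right (le_max_right _ _) (abs_nonneg _)
            nlinarith
  · have h : (T.χ.map toC).det = toC T.χ.det := (RingHom.map_det toC T.χ).symm
    rw [h]
    exact T.χ_unit.map toC
  · exact { Λ := rfl, θ := fun _ => rfl, C := fun _ => rfl, g := fun _ => rfl,
            S := fun _ _ => rfl, J := fun _ _ => rfl, χ := fun y => map_toC T.χ y }

end Pool.Agent.FLG.Dl
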