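import Pool.Agent.FLG.D.Gs
import Pool.Agent.DST.FToC

/-!
# FLG-D-DDefs: definitions for block D (`λ → ∞`)

Notation. `d = dim`, `c_p = cw p` (weight of `c_1` at the fixed point `p`), `ℓ_p = pl p` (sum of the
positive tangent weights), `t_p = tt p`, `R = Rm = (res p a)`, `W = Cg 0 1` (classical multiplication
by `c_1` at `λ = 1`), `th l = l^θ` at `λ = e^l`.
-/

open scoped BigOperators Topology
open Filter

namespace Pool.Agent.FLG.Dl

open Pool.Agent.DST Pool.Agent.FLG

variable {N : ℕ}

/-- The grading operator. -/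
noncomputable def theta (T : GQ N) : Matrix (Fin N) (Fin N) ℂ :=
  Matrix.diagonal fun a => (T.dim : ℂ) / 2 - T.deg a

/-- `e^{lθ}`. -/
noncomputable def th (T : GQ N) (l : ℂ) : Matrix (Fin N) (Fin N) ℂ :=
  Matrix.diagonal fun a => Complex.exp (l * ((T.dim : ℂ) / 2 - T.deg a))

namespace GQ

variable (T : GQ N)

/-- the equation -/
theorem ode (y w : ℂ) (i j : Fin N) : HasDerivAt (fun w => T.J y w i j)
    (((theta T - Complex.exp (-w) • T.C (y * Complex.exp w)) * T.J y w) i j) w :=
  T.J_ode y w i j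

/-- the `Γ`-solutions -/
theorem gamma (y : ℂ) (hy : y.im ≠ 0) (w : ℂ) : T.J y w =
    NormedSpace.exp (w • theta T) * T.cal y (Complex.exp w) *
      NormedSpace.exp (-w • T.Cg 0 y) * T.G y :=
  T.J_gamma y hy w

/-- the weight of `c_1` at the fixed point `p` -/
def cw (p : Fin N) : ℤ := ∑ k, T.wt p k

/-- the sum of the positive tangent weights at `p` -/
def pl (p : Fin N) : ℕ := ∑ k, (T.wt p k).toNat

/-- the restriction of `t + iπ c_1` to `p` at `λ = 1` -/
noncomputable def tt (p : Fin N) : ℂ :=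
  T.tp p + Real.pi * Complex.I * ∑ k, (T.wt p k : ℂ)

/-- the restriction matrix at `λ = 1` -/
noncomputable def Rm : Matrix (Fin N) (Fin N) ℂ := Matrix.of T.res

/-- the restriction matrix at `λ = y` -/
noncomputable def Ry (y : ℂ) : Matrix (Fin N) (Fin N) ℂ :=
  Matrix.of fun p a => T.res p a * y ^ T.deg a

/-- classical multiplication by `c_1` at `λ = 1` -/
noncomputable def W : Matrix (Fin N) (Fin N) ℂ := T.Cg 0 1

/-- `λ^{-1} λ^{-θ} C(λ) λ^θ` at `λ = e^l` -/
noncomputable def Ah (l : ℂ) : Matrix (Fin N) (Fin N) ℂ :=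
  th T (-l) * (Complex.exp (-l) • T.C (Complex.exp l)) * th T l

/-- the scalar part of the `Γ`-solutions at the fixed point `p` -/
noncomputable def Dp (l y : ℂ) (p : Fin N) : ℂ :=
  Complex.exp (-(T.cw p : ℂ) * y * (l - Complex.log y) + T.tt p * y) *
    ∏ k, Complex.Gamma (1 - T.wt p k * y)

/-- the matrix `N(l, y) → 1` as `Re l → ∞` -/
noncomputable def Nn (l y : ℂ) : Matrix (Fin N) (Fin N) ℂ :=
  th T (-Complex.log y) * T.cal y (Complex.exp (l - Complex.log y)) * th T (Complex.log y)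

/-- restrictions of the basis of `K_T(X)`: entry `(p, i)` -/
noncomputable def BT (y : ℂ) : Matrix (Fin N) (Fin N) ℂ := (T.B.map (evZ y)).transpose

/-- `Im 𝔤_p(l)`, where `e^{y 𝔤_p(l)}` is the exponential part of `Dp l y p` -/
noncomputable def gi (l : ℂ) (p : Fin N) : ℝ :=
  -(T.cw p : ℝ) * l.im + (T.tt p).im + Real.pi * T.pl p

/-- the leading term of the transfer matrix at `λ = e^l` -/
noncomputable def A0 (l : ℂ) : Matrix (Fin N) (Fin N) ℂ :=
  T.S (Complex.exp l) 0 * NormedSpace.exp (Complex.exp (-l) • T.C (Complex.exp l))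

/-- the `Γ`-solutions at `λ = e^l` -/
noncomputable def FG (l y : ℂ) : Matrix (Fin N) (Fin N) ℂ := T.J y (l - Complex.log y)

end GQ

/-- `b = B^T X`: the restrictions to the fixed points of the classes with coordinates `X` -/
noncomputable def GQ.gM (T : GQ N)
    (Y : Matrix (Fin N) (Fin N) (LaurentPolynomial ℂ)) :
    Matrix (Fin N) (Fin N) (LaurentPolynomial ℂ) :=
  (T.B.map toC).transpose * Y

end Pool.Agent.FLG.Dl
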