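import Pool.Agent.FLG.D.DPrH

/-!
# FLG-D-DPoly: quantum multiplication by `c_1^T` is a polynomial in `1/λ`, after conjugation by `λ^θ`
-/

open scoped BigOperators Topology
open Filter

namespace Pool.Agent.FLG.Dl

open Pool.Agent.DST Pool.Agent.FLG

variable {N : ℕ}

/-- the polynomial -/
private noncomputable def dpoA (T : GQ N) (s : ℂ) : Matrix (Fin N) (Fin N) ℂ :=
  Matrix.of fun i j => ∑ k ∈ Finset.range (T.K + 1), s ^ k * T.Cg k 1 i j

private theorem dpo_diff (T : GQ N) (i j : Fin N) :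
    Differentiable ℂ fun s => dpoA T s i j := by
  unfold dpoA
  simp only [Matrix.of_apply]
  fun_prop

private theorem dpo_zero (T : GQ N) : dpoA T 0 = T.W := by
  ext i j
  show ∑ k ∈ Finset.range (T.K + 1), (0 : ℂ) ^ k * T.Cg k 1 i j = T.Cg 0 1 i j
  rw [Finset.sum_eq_single 0]
  · rw [pow_zero, one_mul]
  · intro k _ hk
    rw [zero_pow hk, zero_mul]
  · intro h
    exact absurd (Finset.mem_range.2 (Nat.succ_pos _)) h

private theorem dpo_Ah (T : GQ N) (l : ℂ) : T.Ah l = dpoA T (Complex.exp (-l)) := by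
  ext i j
  have h1 : T.Ah l i j = Complex.exp (-l * ((T.dim : ℂ) / 2 - T.deg i)) *
      (Complex.exp (-l) * T.C (Complex.exp l) i j) *
      Complex.exp (l * ((T.dim : ℂ) / 2 - T.deg j)) := by
    unfold GQ.Ah th
    rw [Matrix.mul_diagonal, Matrix.diagonal_mul, Matrix.smul_apply, smul_eq_mul]
  have h2 := T.C_graded 1 l i j
  rw [one_mul] at h2
  rw [h1, h2]
  show _ = ∑ k ∈ Finset.range (T.K + 1), Complex.exp (-l) ^ k * T.Cg k 1 i j
  rw [Finset.mul_sum, Finset.sum_mul]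
  refine Finset.sum_congr rfl fun k _ => ?_
  have h3 : Complex.exp (-l * ((T.dim : ℂ) / 2 - T.deg i)) *
      Complex.exp (l * (((T.dim : ℂ) / 2 - T.deg i) - ((T.dim : ℂ) / 2 - T.deg j))) *
      Complex.exp (l * ((T.dim : ℂ) / 2 - T.deg j)) = 1 := by
    rw [← Complex.exp_add, ← Complex.exp_add, ← Complex.exp_zero]
    congr 1
    ring
  have h4 : Complex.exp (-l) ^ k = Complex.exp (-(k * l)) := by
    rw [← Complex.exp_nat_mul]
    congr 1
    ring
  rw [h4]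
  linear_combination (Complex.exp (-(k * l)) * T.Cg k 1 i j) * h3

theorem GQ.exists_poly (T : GQ N) : ∃ 𝒜 : ℂ → Matrix (Fin N) (Fin N) ℂ,
    (∀ i j, Differentiable ℂ fun s => 𝒜 s i j) ∧ 𝒜 0 = T.W ∧
      ∀ l, T.Ah l = 𝒜 (Complex.exp (-l)) :=
  ⟨dpoA T, dpo_diff T, dpo_zero T, dpo_Ah T⟩

/-- a differentiable function is Lipschitz at `0` on the unit disc -/
private theorem dpo_lip {f : ℂ → ℂ} (hf : Differentiable ℂ f) :
    ∃ K : ℝ, 0 ≤ K ∧ ∀ s : ℂ, ‖s‖ ≤ 1 → ‖f s - f 0‖ ≤ K * ‖s‖ := by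
  have h1 : ContinuousOn (dslope f 0) Set.univ :=
    (continuousOn_dslope univ_mem).2 ⟨hf.continuous.continuousOn, hf 0⟩
  obtain ⟨K, hK⟩ := (isCompact_closedBall (0 : ℂ) 1).exists_bound_of_continuousOn
    (h1.mono (Set.subset_univ _))
  have hK0 : 0 ≤ K := (norm_nonneg _).trans (hK 0 (Metric.mem_closedBall_self zero_le_one))
  refine ⟨K, hK0, fun s hs => ?_⟩
  have h2 := sub_smul_dslope f 0 s
  rw [← h2, norm_smul, sub_zero, mul_comm]
  exact mul_le_mul_of_nonneg_right (hK s (mem_closedBall_zero_iff.2 hs)) (norm_nonneg _)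

theorem GQ.Ah_sub (T : GQ N) : ∃ K : ℝ, 0 ≤ K ∧ ∀ l : ℂ, 0 ≤ l.re → ∀ i j,
    ‖(T.Ah l - T.W) i j‖ ≤ K * Real.exp (-l.re) := by
  obtain ⟨𝒜, hd, h0, hA⟩ := T.exists_poly
  choose K hK0 hK using fun i j => dpo_lip (hd i j)
  refine ⟨∑ i, ∑ j, K i j, Finset.sum_nonneg fun i _ => Finset.sum_nonneg fun j _ => hK0 i j,
    fun l hl i j => ?_⟩
  have h1 : ‖Complex.exp (-l)‖ = Real.exp (-l.re) := by
    rw [Complex.norm_exp, Complex.neg_re]
  have h2 : ‖Complex.exp (-l)‖ ≤ 1 := by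
    rw [h1]
    exact Real.exp_le_one_iff.2 (by linarith)
  have h3 : K i j ≤ ∑ i, ∑ j, K i j :=
    (Finset.single_le_sum (f := fun j => K i j) (fun j _ => hK0 i j) (Finset.mem_univ j)).trans
      (Finset.single_le_sum (f := fun i => ∑ j, K i j)
        (fun i _ => Finset.sum_nonneg fun j _ => hK0 i j) (Finset.mem_univ i))
  rw [Matrix.sub_apply, hA, ← h0]
  refine (hK i j _ h2).trans ?_
  rw [h1]
  exact mul_le_mul_of_nonneg_right h3 (Real.exp_pos _).le

end Pool.Agent.FLG.Dl
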