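import Pool.Agent.FLG.D.DShB
import Pool.Agent.FLG.D.DPoly
import Pool.Agent.DST.DEigF
import Pool.Agent.DST.SHol

/-!
# FLG-D-DEigA: eigenvectors of `Ah l` and eigenvalues of the transfer matrix for large `λ`

The eigenvectors come from `eig_family` applied to `Rm * 𝒜 s * Rm⁻¹`, `s = e^{-l}`. The matrix `Sh l` commutes
with `Ah l`, so it is diagonal in the same basis; differentiation of both eigenvector equations (`conj_deriv`)
and `Sh_deriv` give the differential equation of the eigenvalues.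
-/

open scoped BigOperators Topology
open Filter

namespace Pool.Agent.FLG.Dl

open Pool.Agent.DST Pool.Agent.FLG

variable {N : ℕ} {T : GQ N}

/-- derivative of a conjugation which makes a family diagonal -/
private theorem conj_deriv {A Q : ℂ → Matrix (Fin N) (Fin N) ℂ} {A' Q' : Matrix (Fin N) (Fin N) ℂ}
    {v : ℂ → Fin N → ℂ} {v' : Fin N → ℂ} {l : ℂ}
    (hA : ∀ i j, HasDerivAt (fun l => A l i j) (A' i j) l)
    (hQ : ∀ i j, HasDerivAt (fun l => Q l i j) (Q' i j) l)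
    (hv : ∀ j, HasDerivAt (fun l => v l j) (v' j) l)
    (h : ∀ᶠ l' in 𝓝 l, A l' * Q l' = Q l' * Matrix.diagonal (v l')) (hdet : (Q l).det ≠ 0)
    (j : Fin N) : ((Q l)⁻¹ * A' * Q l) j j = v' j := by
  have hD : ∀ i j, HasDerivAt (fun l => Matrix.diagonal (v l) i j) (Matrix.diagonal v' i j) l := by
    intro i j
    by_cases hij : i = j
    · subst hij
      simpa using hv i
    · have e1 : (fun l => Matrix.diagonal (v l) i j) = fun _ => (0 : ℂ) := by
        funext l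
        exact Matrix.diagonal_apply_ne _ hij
      rw [e1, Matrix.diagonal_apply_ne _ hij]
      exact hasDerivAt_const _ _
  have e : A' * Q l + A l * Q' = Q' * Matrix.diagonal (v l) + Q l * Matrix.diagonal v' := by
    ext i j
    exact HasDerivAt.unique (hasDerivAt_mul_entry hA hQ i j)
      ((hasDerivAt_mul_entry hQ hD i j).congr_of_eventuallyEq (h.mono fun l' hl' => by
        show (A l' * Q l') i j = _
        rw [hl']))
  have hu : IsUnit (Q l).det := isUnit_iff_ne_zero.2 hdet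
  have e0 : A l * Q l = Q l * Matrix.diagonal (v l) := h.self_of_nhds
  have e1 : (Q l)⁻¹ * A l = Matrix.diagonal (v l) * (Q l)⁻¹ := by
    calc (Q l)⁻¹ * A l = (Q l)⁻¹ * (A l * Q l) * (Q l)⁻¹ := by
          rw [Matrix.mul_assoc, Matrix.mul_assoc, Matrix.mul_nonsing_inv _ hu, Matrix.mul_one]
      _ = Matrix.diagonal (v l) * (Q l)⁻¹ := by
          rw [e0, ← Matrix.mul_assoc, Matrix.nonsing_inv_mul _ hu, Matrix.one_mul]
  have t1 : (Q l)⁻¹ * (A' * Q l + A l * Q') =
      (Q l)⁻¹ * A' * Q l + Matrix.diagonal (v l) * ((Q l)⁻¹ * Q') := by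
    rw [Matrix.mul_add, ← Matrix.mul_assoc, ← Matrix.mul_assoc, e1, Matrix.mul_assoc (Matrix.diagonal _)]
  have t2 : (Q l)⁻¹ * (Q' * Matrix.diagonal (v l) + Q l * Matrix.diagonal v') =
      (Q l)⁻¹ * Q' * Matrix.diagonal (v l) + Matrix.diagonal v' := by
    rw [Matrix.mul_add, ← Matrix.mul_assoc, ← Matrix.mul_assoc, Matrix.nonsing_inv_mul _ hu, Matrix.one_mul]
  rw [e, t2] at t1
  have t3 := congrFun (congrFun t1 j) j
  rw [Matrix.add_apply, Matrix.add_apply, Matrix.mul_diagonal, Matrix.diagonal_mul, Matrix.diagonal_apply_eq] at t3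
  linear_combination -t3

/-- a matrix commuting with a diagonal matrix with distinct entries is diagonal -/
private theorem diag_of_comm {Y : Matrix (Fin N) (Fin N) ℂ} {v : Fin N → ℂ} (hv : Function.Injective v)
    (h : Y * Matrix.diagonal v = Matrix.diagonal v * Y) : Y = Matrix.diagonal fun j => Y j j := by
  ext i j
  by_cases hij : i = j
  · subst hij
    rw [Matrix.diagonal_apply_eq]
  · rw [Matrix.diagonal_apply_ne _ hij]
    have e := congrFun (congrFun h i) j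
    rw [Matrix.mul_diagonal, Matrix.diagonal_mul] at e
    have e' : (v j - v i) * Y i j = 0 := by linear_combination e
    rcases mul_eq_zero.1 e' with h1 | h1
    · exact absurd (hv (sub_eq_zero.1 h1)).symm hij
    · exact h1

/-- uniform estimates near `0` -/
private theorem near_zero {U : ℂ → Fin N → ℂ} {c : Fin N → ℂ} (hc : Function.Injective c) (h0 : U 0 = c)
    (hU : ∀ i, DifferentiableAt ℂ (fun s => U s i) 0) : ∃ K : ℝ, 0 ≤ K ∧
    ∀ᶠ s in 𝓝 (0 : ℂ), Function.Injective (U s) ∧ ∀ j, ‖U s j - c j‖ ≤ K * ‖s‖ := by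
  have h1 : ∀ i j, ∀ᶠ s in 𝓝 (0 : ℂ), i ≠ j → U s i ≠ U s j := by
    intro i j
    by_cases hij : i = j
    · exact Filter.Eventually.of_forall fun s h => absurd hij h
    · have h2 : U 0 i - U 0 j ≠ 0 := by
        rw [h0]
        exact sub_ne_zero.2 fun e => hij (hc e)
      have h3 : ContinuousAt (fun s => U s i - U s j) 0 := (hU i).continuousAt.sub (hU j).continuousAt
      exact (h3.eventually_ne h2).mono fun s hs _ e => hs (sub_eq_zero.2 e)
  have h2 : ∀ j, ∃ K : ℝ, 0 ≤ K ∧ ∀ᶠ s in 𝓝 (0 : ℂ), ‖U s j - c j‖ ≤ K * ‖s‖ := by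
    intro j
    obtain ⟨K, hK, hKb⟩ := (hU j).isBigO_sub.exists_nonneg
    refine ⟨K, hK, hKb.bound.mono fun s hs => ?_⟩
    rw [sub_zero, h0] at hs
    exact hs
  choose K hK hKb using h2
  refine ⟨∑ j, K j, Finset.sum_nonneg fun j _ => hK j, ?_⟩
  filter_upwards [Filter.eventually_all.2 fun i => Filter.eventually_all.2 (h1 i), Filter.eventually_all.2 hKb]
    with s hs hs'
  refine ⟨fun i j hij => ?_, fun j => (hs' j).trans ?_⟩
  · by_contra hne
    exact hs i j hne hij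
  · exact mul_le_mul_of_nonneg_right (Finset.single_le_sum (fun j _ => hK j) (Finset.mem_univ j)) (norm_nonneg _)

theorem GQ.cw_inj (T : GQ N) : Function.Injective fun j => (T.cw j : ℂ) := by
  intro i j h
  have h1 : T.cw i = T.cw j := Int.cast_injective (α := ℂ) h
  exact T.strict.injective h1

/-- eigenvectors and eigenvalues of `𝒜 (exp (-l))` -/
private theorem frame1 {R : Matrix (Fin N) (Fin N) ℂ} (hR : R.det ≠ 0) {𝒜 : ℂ → Matrix (Fin N) (Fin N) ℂ}
    {c : Fin N → ℂ} (hc : Function.Injective c) (hAd : ∀ i j, Differentiable ℂ fun s => 𝒜 s i j)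
    (hA0 : R * 𝒜 0 = Matrix.diagonal c * R) : ∃ L K : ℝ, 0 ≤ K ∧
    ∃ (Q : ℂ → Matrix (Fin N) (Fin N) ℂ) (u : ℂ → Fin N → ℂ), ∀ l : ℂ, L < l.re →
      (Q l).det ≠ 0 ∧ 𝒜 (Complex.exp (-l)) * Q l = Q l * Matrix.diagonal (u l) ∧ Function.Injective (u l) ∧
      (∀ i j, DifferentiableAt ℂ (fun l => Q l i j) l) ∧ (∀ j, DifferentiableAt ℂ (fun l => u l j) l) ∧
      ∀ j, ‖u l j - c j‖ ≤ K * Real.exp (-l.re) := by
  have hRu : IsUnit R.det := isUnit_iff_ne_zero.2 hR
  have hM0 : (fun s => R * 𝒜 s * R⁻¹) 0 = Matrix.diagonal c := by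
    show R * 𝒜 0 * R⁻¹ = Matrix.diagonal c
    rw [hA0, Matrix.mul_assoc, Matrix.mul_nonsing_inv _ hRu, Matrix.mul_one]
  have hMd : ∀ i j, ∀ᶠ s in 𝓝 (0 : ℂ), DifferentiableAt ℂ (fun s => (fun s => R * 𝒜 s * R⁻¹) s i j) s := by
    intro i j
    refine Filter.Eventually.of_forall fun s => ?_
    have h1 : ∀ i j, DifferentiableAt ℂ (fun s => (R * 𝒜 s) i j) s :=
      diffAt_mul (A := fun _ => R) (B := 𝒜) (fun _ _ => differentiableAt_const _) (fun i j => (hAd i j) s)
    exact diffAt_mul (A := fun s => R * 𝒜 s) (B := fun _ => R⁻¹) h1 (fun _ _ => differentiableAt_const _) i j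
  obtain ⟨ρ, hρ, P, U, -, hU0, hPU⟩ := eig_family hc hM0 hMd
  obtain ⟨K, hK, hev⟩ := near_zero hc hU0 (hPU 0 (Metric.mem_ball_self hρ)).2.1
  obtain ⟨r₁, hr₁, hr₁b⟩ := Metric.eventually_nhds_iff_ball.1 hev
  obtain ⟨r, hr0, hrρ, hrr⟩ : ∃ r : ℝ, 0 < r ∧ r ≤ ρ ∧ r ≤ r₁ :=
    ⟨min ρ r₁, lt_min hρ hr₁, min_le_left _ _, min_le_right _ _⟩
  have hball : ∀ l : ℂ, -Real.log r < l.re → ‖Complex.exp (-l)‖ < r := by
    intro l hl
    have h1 : Real.exp (-l.re) < Real.exp (Real.log r) := Real.exp_lt_exp.2 (by linarith)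
    rw [Real.exp_log hr0] at h1
    rw [Complex.norm_exp, Complex.neg_re]
    exact h1
  have hbρ : ∀ l : ℂ, -Real.log r < l.re → Complex.exp (-l) ∈ Metric.ball (0 : ℂ) ρ := fun l hl =>
    mem_ball_zero_iff.2 (lt_of_lt_of_le (hball l hl) hrρ)
  have hb1 : ∀ l : ℂ, -Real.log r < l.re → Complex.exp (-l) ∈ Metric.ball (0 : ℂ) r₁ := fun l hl =>
    mem_ball_zero_iff.2 (lt_of_lt_of_le (hball l hl) hrr)
  have hexp : ∀ l : ℂ, DifferentiableAt ℂ (fun l : ℂ => Complex.exp (-l)) l := fun l =>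
    (differentiable_neg l).cexp
  refine ⟨-Real.log r, K, hK, fun l => R⁻¹ * P (Complex.exp (-l)), fun l => U (Complex.exp (-l)), fun l hl => ?_⟩
  have h1 := hPU _ (hbρ l hl)
  have h2 := hr₁b _ (hb1 l hl)
  refine ⟨?_, ?_, h2.1, ?_, ?_, fun j => ?_⟩
  · rw [Matrix.det_mul, Matrix.det_nonsing_inv, Ring.inverse_eq_inv']
    exact mul_ne_zero (inv_ne_zero hR) h1.2.2.1
  · have h3 := h1.2.2.2
    calc 𝒜 (Complex.exp (-l)) * (R⁻¹ * P (Complex.exp (-l)))
        = R⁻¹ * (R * 𝒜 (Complex.exp (-l)) * R⁻¹ * P (Complex.exp (-l))) := by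
          simp only [← Matrix.mul_assoc]
          rw [Matrix.nonsing_inv_mul _ hRu, Matrix.one_mul]
      _ = R⁻¹ * P (Complex.exp (-l)) * Matrix.diagonal (U (Complex.exp (-l))) := by
          rw [h3, Matrix.mul_assoc]
  · exact diffAt_mul (A := fun _ => R⁻¹) (B := fun l : ℂ => P (Complex.exp (-l)))
      (fun _ _ => differentiableAt_const _) fun i j =>
      DifferentiableAt.comp (g := fun s => P s i j) l (h1.1 i j) (hexp l)
  · exact fun j => DifferentiableAt.comp (g := fun s => U s j) l (h1.2.1 j) (hexp l)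
  · have h4 := h2.2 j
    rw [Complex.norm_exp, Complex.neg_re] at h4
    exact h4

/-- the eigenvectors and eigenvalues of `Ah l` -/
private theorem frame0 (T : GQ N) : ∃ L K : ℝ, 0 ≤ K ∧
    ∃ (Q : ℂ → Matrix (Fin N) (Fin N) ℂ) (u : ℂ → Fin N → ℂ), ∀ l : ℂ, L < l.re →
      (Q l).det ≠ 0 ∧ T.Ah l * Q l = Q l * Matrix.diagonal (u l) ∧ Function.Injective (u l) ∧
      (∀ i j, DifferentiableAt ℂ (fun l => Q l i j) l) ∧ (∀ j, DifferentiableAt ℂ (fun l => u l j) l) ∧
      ∀ j, ‖u l j - T.cw j‖ ≤ K * Real.exp (-l.re) := by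
  obtain ⟨𝒜, hAd, hA0, hA⟩ := T.exists_poly
  obtain ⟨L, K, hK, Q, u, h⟩ := frame1 T.det_Rm T.cw_inj hAd (by rw [hA0]; exact T.Rm_W)
  refine ⟨L, K, hK, Q, u, fun l hl => ?_⟩
  rw [hA l]
  exact h l hl

theorem GQ.eig_frame (T : GQ N) : ∃ L K : ℝ, 0 ≤ K ∧
    ∃ (Q : ℂ → Matrix (Fin N) (Fin N) ℂ) (u a : ℂ → Fin N → ℂ), ∀ l : ℂ, L < l.re →
      (Q l).det ≠ 0 ∧ T.Ah l * Q l = Q l * Matrix.diagonal (u l) ∧
      th T (-l) * T.A0 l * th T l * Q l = Q l * Matrix.diagonal (a l) ∧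
      Function.Injective (u l) ∧
      ∀ j, a l j ≠ 0 ∧ HasDerivAt (fun l => a l j) (-(u l j) * a l j) l ∧
        ‖u l j - T.cw j‖ ≤ K * Real.exp (-l.re) := by
  obtain ⟨L, K, hK, Q, u, hfr⟩ := frame0 T
  have hdet : ∀ l : ℂ, L < l.re → (Q l).det ≠ 0 := fun l hl => (hfr l hl).1
  have hAQ : ∀ l : ℂ, L < l.re → T.Ah l * Q l = Q l * Matrix.diagonal (u l) := fun l hl => (hfr l hl).2.1
  have hinj : ∀ l : ℂ, L < l.re → Function.Injective (u l) := fun l hl => (hfr l hl).2.2.1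
  have hQd : ∀ l : ℂ, L < l.re → ∀ i j, DifferentiableAt ℂ (fun l => Q l i j) l := fun l hl => (hfr l hl).2.2.2.1
  have hud : ∀ l : ℂ, L < l.re → ∀ j, DifferentiableAt ℂ (fun l => u l j) l := fun l hl => (hfr l hl).2.2.2.2.1
  have hest : ∀ l : ℂ, L < l.re → ∀ j, ‖u l j - T.cw j‖ ≤ K * Real.exp (-l.re) := fun l hl => (hfr l hl).2.2.2.2.2
  clear hfr
  -- the eigenvalues of `Sh`
  set s : ℂ → Fin N → ℂ := fun l j => ((Q l)⁻¹ * T.Sh l * Q l) j j with hs
  have hSQ : ∀ l : ℂ, L < l.re → T.Sh l * Q l = Q l * Matrix.diagonal (s l) := by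
    intro l hl
    have hQu : IsUnit (Q l).det := isUnit_iff_ne_zero.2 (hdet l hl)
    have e1 : (Q l)⁻¹ * T.Ah l = Matrix.diagonal (u l) * (Q l)⁻¹ := by
      calc (Q l)⁻¹ * T.Ah l = (Q l)⁻¹ * (T.Ah l * Q l) * (Q l)⁻¹ := by
            rw [Matrix.mul_assoc, Matrix.mul_assoc, Matrix.mul_nonsing_inv _ hQu, Matrix.mul_one]
        _ = Matrix.diagonal (u l) * (Q l)⁻¹ := by
            rw [hAQ l hl, ← Matrix.mul_assoc, Matrix.nonsing_inv_mul _ hQu, Matrix.one_mul]
    have hcomm : ((Q l)⁻¹ * T.Sh l * Q l) * Matrix.diagonal (u l) =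
        Matrix.diagonal (u l) * ((Q l)⁻¹ * T.Sh l * Q l) := by
      calc ((Q l)⁻¹ * T.Sh l * Q l) * Matrix.diagonal (u l) = (Q l)⁻¹ * T.Sh l * (T.Ah l * Q l) := by
            rw [hAQ l hl]
            simp only [Matrix.mul_assoc]
        _ = (Q l)⁻¹ * (T.Ah l * T.Sh l) * Q l := by
            rw [T.Sh_comm l]
            simp only [Matrix.mul_assoc]
        _ = (Q l)⁻¹ * T.Ah l * (T.Sh l * Q l) := by simp only [Matrix.mul_assoc]
        _ = Matrix.diagonal (u l) * ((Q l)⁻¹ * T.Sh l * Q l) := by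
            rw [e1]
            simp only [Matrix.mul_assoc]
    have hd := diag_of_comm (hinj l hl) hcomm
    calc T.Sh l * Q l = Q l * ((Q l)⁻¹ * T.Sh l * Q l) := by
          simp only [← Matrix.mul_assoc]
          rw [Matrix.mul_nonsing_inv _ hQu, Matrix.one_mul]
      _ = Q l * Matrix.diagonal (s l) := by rw [hd]
  have hShd : ∀ l : ℂ, (T.Sh l).det ≠ 0 := by
    intro l
    rw [GQ.Sh, Matrix.det_mul, Matrix.det_mul]
    exact mul_ne_zero (mul_ne_zero (th_det _) (T.S_det _ _)) (th_det _)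
  have hs0 : ∀ l : ℂ, L < l.re → ∀ j, s l j ≠ 0 := by
    intro l hl j hj
    have h1 := congrArg Matrix.det (hSQ l hl)
    rw [Matrix.det_mul, Matrix.det_mul, Matrix.det_diagonal, Finset.prod_eq_zero (Finset.mem_univ j) hj,
      mul_zero] at h1
    exact mul_ne_zero (hShd l) (hdet l hl) h1
  refine ⟨L, K, hK, Q, u, fun l j => s l j * Complex.exp (u l j), fun l hl => ?_⟩
  have hQu : IsUnit (Q l).det := isUnit_iff_ne_zero.2 (hdet l hl)
  have hnear : ∀ᶠ l' in 𝓝 l, L < l'.re := (isOpen_lt continuous_const Complex.continuous_re).mem_nhds hl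
  refine ⟨hdet l hl, hAQ l hl, ?_, hinj l hl, fun j => ⟨mul_ne_zero (hs0 l hl j) (Complex.exp_ne_zero _), ?_, ?_⟩⟩
  · -- the eigenvalues of the transfer matrix
    have hth : (th T l)⁻¹ = th T (-l) := Matrix.inv_eq_left_inv (th_neg_mul l)
    have hthu : IsUnit (th T l) := (Matrix.isUnit_iff_isUnit_det _).2 (isUnit_iff_ne_zero.2 (th_det l))
    have hQU : IsUnit (Q l) := (Matrix.isUnit_iff_isUnit_det _).2 hQu
    have e1 : NormedSpace.exp (T.Ah l) =
        th T (-l) * NormedSpace.exp (Complex.exp (-l) • T.C (Complex.exp l)) *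
          th T l := by
      rw [GQ.Ah, ← hth]
      exact Matrix.exp_conj' _ _ hthu
    have e2 : th T (-l) * T.A0 l * th T l = T.Sh l * NormedSpace.exp (T.Ah l) := by
      rw [e1, GQ.A0, GQ.Sh]
      calc th T (-l) * (T.S (Complex.exp l) 0 *
            NormedSpace.exp (Complex.exp (-l) • T.C (Complex.exp l))) * th T l
          = th T (-l) * T.S (Complex.exp l) 0 * 1 *
            NormedSpace.exp (Complex.exp (-l) • T.C (Complex.exp l)) * th T l := by
            rw [Matrix.mul_one]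
            simp only [Matrix.mul_assoc]
        _ = _ := by
            rw [← th_mul_neg (T := T) l]
            simp only [Matrix.mul_assoc]
    have e3 : NormedSpace.exp (T.Ah l) * Q l = Q l * Matrix.diagonal (fun j => Complex.exp (u l j)) := by
      have h1 : T.Ah l = Q l * Matrix.diagonal (u l) * (Q l)⁻¹ := by
        rw [← hAQ l hl, Matrix.mul_assoc, Matrix.mul_nonsing_inv _ hQu, Matrix.mul_one]
      rw [h1, Matrix.exp_conj _ _ hQU, Matrix.mul_assoc, Matrix.nonsing_inv_mul _ hQu, Matrix.mul_one,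
        Matrix.exp_diagonal]
      congr 2
      funext j
      rw [Pi.coe_exp, Complex.exp_eq_exp_ℂ]
    calc th T (-l) * T.A0 l * th T l * Q l = T.Sh l * (NormedSpace.exp (T.Ah l) * Q l) := by
          rw [e2, Matrix.mul_assoc]
      _ = T.Sh l * Q l * Matrix.diagonal (fun j => Complex.exp (u l j)) := by
          rw [e3, Matrix.mul_assoc]
      _ = Q l * Matrix.diagonal (fun j => s l j * Complex.exp (u l j)) := by
          rw [hSQ l hl, Matrix.mul_assoc, Matrix.diagonal_mul_diagonal]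
  · -- the differential equation
    obtain ⟨S₁, A', hA', hS'⟩ := T.Sh_deriv l
    have hQ' : ∀ i j, HasDerivAt (fun l => Q l i j) ((Matrix.of fun i j => deriv (fun l => Q l i j) l) i j) l :=
      fun i j => (hQd l hl i j).hasDerivAt
    have hu' : ∀ j, HasDerivAt (fun l => u l j) (deriv (fun l => u l j) l) l := fun j => (hud l hl j).hasDerivAt
    have hsd : ∀ j, DifferentiableAt ℂ (fun l => s l j) l := fun j =>
      diffAt_mul (fun i j => diffAt_mul (fun i j => diffAt_inv (hQd l hl) (hdet l hl) i j)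
        (fun i j => (hS' i j).differentiableAt) i j) (hQd l hl) j j
    have hs' : ∀ j, HasDerivAt (fun l => s l j) (deriv (fun l => s l j) l) l := fun j => (hsd j).hasDerivAt
    have k1 := conj_deriv (v' := fun j => deriv (fun l => u l j) l) hA' hQ' hu'
      (hnear.mono fun l' hl' => hAQ l' hl') (hdet l hl) j
    have k2 := conj_deriv (v' := fun j => deriv (fun l => s l j) l) hS' hQ' hs'
      (hnear.mono fun l' hl' => hSQ l' hl') (hdet l hl) j
    have c1 : (Q l)⁻¹ * T.Ah l = Matrix.diagonal (u l) * (Q l)⁻¹ := by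
      calc (Q l)⁻¹ * T.Ah l = (Q l)⁻¹ * (T.Ah l * Q l) * (Q l)⁻¹ := by
            rw [Matrix.mul_assoc, Matrix.mul_assoc, Matrix.mul_nonsing_inv _ hQu, Matrix.mul_one]
        _ = Matrix.diagonal (u l) * (Q l)⁻¹ := by
            rw [hAQ l hl, ← Matrix.mul_assoc, Matrix.nonsing_inv_mul _ hQu, Matrix.one_mul]
    have c2 : (Q l)⁻¹ * T.Sh l = Matrix.diagonal (s l) * (Q l)⁻¹ := by
      calc (Q l)⁻¹ * T.Sh l = (Q l)⁻¹ * (T.Sh l * Q l) * (Q l)⁻¹ := by
            rw [Matrix.mul_assoc, Matrix.mul_assoc, Matrix.mul_nonsing_inv _ hQu, Matrix.mul_one]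
        _ = Matrix.diagonal (s l) * (Q l)⁻¹ := by
            rw [hSQ l hl, ← Matrix.mul_assoc, Matrix.nonsing_inv_mul _ hQu, Matrix.one_mul]
    have c3 : (Q l)⁻¹ * (S₁ * T.Ah l - T.Ah l * S₁ -
          T.Sh l * (A' + T.Ah l + theta T * T.Ah l - T.Ah l * theta T)) * Q l =
        ((Q l)⁻¹ * S₁ * Q l) * Matrix.diagonal (u l) - Matrix.diagonal (u l) * ((Q l)⁻¹ * S₁ * Q l) -
        Matrix.diagonal (s l) * ((Q l)⁻¹ * A' * Q l + Matrix.diagonal (u l) +
          (((Q l)⁻¹ * theta T * Q l) * Matrix.diagonal (u l) -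
            Matrix.diagonal (u l) * ((Q l)⁻¹ * theta T * Q l))) := by
      have d1 : (Q l)⁻¹ * (S₁ * T.Ah l) * Q l = ((Q l)⁻¹ * S₁ * Q l) * Matrix.diagonal (u l) := by
        calc (Q l)⁻¹ * (S₁ * T.Ah l) * Q l = (Q l)⁻¹ * S₁ * (T.Ah l * Q l) := by simp only [Matrix.mul_assoc]
          _ = _ := by rw [hAQ l hl]; simp only [Matrix.mul_assoc]
      have d2 : (Q l)⁻¹ * (T.Ah l * S₁) * Q l = Matrix.diagonal (u l) * ((Q l)⁻¹ * S₁ * Q l) := by
        calc (Q l)⁻¹ * (T.Ah l * S₁) * Q l = ((Q l)⁻¹ * T.Ah l) * S₁ * Q l := by simp only [Matrix.mul_assoc]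
          _ = _ := by rw [c1]; simp only [Matrix.mul_assoc]
      have d3 : ∀ Z : Matrix (Fin N) (Fin N) ℂ, (Q l)⁻¹ * (T.Sh l * Z) * Q l =
          Matrix.diagonal (s l) * ((Q l)⁻¹ * Z * Q l) := by
        intro Z
        calc (Q l)⁻¹ * (T.Sh l * Z) * Q l = ((Q l)⁻¹ * T.Sh l) * Z * Q l := by simp only [Matrix.mul_assoc]
          _ = _ := by rw [c2]; simp only [Matrix.mul_assoc]
      have d4 : (Q l)⁻¹ * T.Ah l * Q l = Matrix.diagonal (u l) := by
        rw [c1, Matrix.mul_assoc, Matrix.nonsing_inv_mul _ hQu, Matrix.mul_one]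
      have d5 : (Q l)⁻¹ * (theta T * T.Ah l) * Q l = ((Q l)⁻¹ * theta T * Q l) * Matrix.diagonal (u l) := by
        calc (Q l)⁻¹ * (theta T * T.Ah l) * Q l = (Q l)⁻¹ * theta T * (T.Ah l * Q l) := by
              simp only [Matrix.mul_assoc]
          _ = _ := by rw [hAQ l hl]; simp only [Matrix.mul_assoc]
      have d6 : (Q l)⁻¹ * (T.Ah l * theta T) * Q l = Matrix.diagonal (u l) * ((Q l)⁻¹ * theta T * Q l) := by
        calc (Q l)⁻¹ * (T.Ah l * theta T) * Q l = ((Q l)⁻¹ * T.Ah l) * theta T * Q l := by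
              simp only [Matrix.mul_assoc]
          _ = _ := by rw [c1]; simp only [Matrix.mul_assoc]
      rw [Matrix.mul_sub, Matrix.mul_sub, Matrix.sub_mul, Matrix.sub_mul, d1, d2, d3]
      congr 2
      rw [Matrix.mul_sub, Matrix.mul_add, Matrix.mul_add, Matrix.sub_mul, Matrix.add_mul, Matrix.add_mul,
        d4, d5, d6]
      abel
    rw [c3] at k2
    simp only [Matrix.sub_apply, Matrix.mul_diagonal, Matrix.diagonal_mul, Matrix.add_apply,
      Matrix.diagonal_apply_eq] at k2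
    have k3 := (hs' j).mul (hu' j).cexp
    refine k3.congr_deriv ?_
    have k1' : ((Q l)⁻¹ * A' * Q l) j j = deriv (fun l => u l j) l := k1
    rw [k1'] at k2
    have k4 : deriv (fun l => s l j) l = -(s l j) * (deriv (fun l => u l j) l + u l j) := by
      rw [← k2]
      ring
    rw [k4]
    ring
  · exact hest l hl j

end Pool.Agent.FLG.Dl
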