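import Pool.Agent.FLG.D.DNbd
import Pool.Agent.FLG.D.DDp

/-!
# FLG-D-DGrA: at most exponential growth on vertical strips, for `0 ≤ re l`

For `|re y| ≤ |im y|` use the factorisation `T.form` with `Nn * Rm⁻¹ = Rm⁻¹ * (Rm * Nn * Rm⁻¹)` and the
bounds `N_bound`, `Dp_strip`, `evZ_growth`; the other points of the strip form a compact set.
-/

open scoped BigOperators Topology
open Filter

namespace Pool.Agent.FLG.Dl

open Pool.Agent.DST Pool.Agent.FLG

variable {N : ℕ} {T : GQ N}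

/-- at most exponential growth on `S` -/
private def Gr (S : Set ℂ) (f : ℂ → ℂ) : Prop :=
  ∃ C : ℝ, ∀ y ∈ S, ‖f y‖ ≤ Real.exp (C * |y.im|)

private theorem Gr.of_le {S : Set ℂ} (hS : ∀ y ∈ S, 1 ≤ |y.im|) {f : ℂ → ℂ} (A B : ℝ)
    (h : ∀ y ∈ S, ‖f y‖ ≤ A * Real.exp (B * |y.im|)) : Gr S f := by
  refine ⟨|A| + B, fun y hy => (h y hy).trans ?_⟩
  have h1 : A ≤ Real.exp (|A| * |y.im|) := by
    have h2 : |A| ≤ |A| * |y.im| := le_mul_of_one_le_right (abs_nonneg A) (hS y hy)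
    have h3 := Real.add_one_le_exp (|A| * |y.im|)
    have h4 := le_abs_self A
    linarith
  rw [add_mul, Real.exp_add]
  exact mul_le_mul_of_nonneg_right h1 (Real.exp_pos _).le

private theorem Gr.const {S : Set ℂ} (hS : ∀ y ∈ S, 1 ≤ |y.im|) (c : ℂ) :
    Gr S (fun _ => c) := by
  refine Gr.of_le hS ‖c‖ 0 fun y _ => ?_
  rw [zero_mul, Real.exp_zero, mul_one]

private theorem Gr.add {S : Set ℂ} (hS : ∀ y ∈ S, 1 ≤ |y.im|) {f g : ℂ → ℂ} (hf : Gr S f)
    (hg : Gr S g) : Gr S (fun y => f y + g y) := by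
  obtain ⟨C1, h1⟩ := hf
  obtain ⟨C2, h2⟩ := hg
  refine Gr.of_le hS 2 (max C1 C2) fun y hy => ?_
  have h3 : Real.exp (C1 * |y.im|) ≤ Real.exp (max C1 C2 * |y.im|) :=
    Real.exp_le_exp.2 (mul_le_mul_of_nonneg_right (le_max_left _ _) (abs_nonneg _))
  have h4 : Real.exp (C2 * |y.im|) ≤ Real.exp (max C1 C2 * |y.im|) :=
    Real.exp_le_exp.2 (mul_le_mul_of_nonneg_right (le_max_right _ _) (abs_nonneg _))
  have h5 := norm_add_le (f y) (g y)
  have h6 := h1 y hy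
  have h7 := h2 y hy
  linarith

private theorem Gr.mul {S : Set ℂ} {f g : ℂ → ℂ} (hf : Gr S f)
    (hg : Gr S g) : Gr S (fun y => f y * g y) := by
  obtain ⟨C1, h1⟩ := hf
  obtain ⟨C2, h2⟩ := hg
  refine ⟨C1 + C2, fun y hy => ?_⟩
  rw [norm_mul, add_mul, Real.exp_add]
  exact mul_le_mul (h1 y hy) (h2 y hy) (norm_nonneg _) (Real.exp_pos _).le

private theorem Gr.sum {S : Set ℂ} (hS : ∀ y ∈ S, 1 ≤ |y.im|) {ι : Type*} (s : Finset ι)
    {f : ι → ℂ → ℂ} (hf : ∀ k, Gr S (f k)) : Gr S (fun y => ∑ k ∈ s, f k y) := by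
  classical
  induction s using Finset.induction_on with
  | empty =>
    simp only [Finset.sum_empty]
    exact Gr.const hS 0
  | insert a s ha ih =>
    simp only [Finset.sum_insert ha]
    exact Gr.add hS (hf a) ih

/-- entrywise -/
private def GrM (S : Set ℂ) (M : ℂ → Matrix (Fin N) (Fin N) ℂ) : Prop :=
  ∀ i j, Gr S (fun y => M y i j)

private theorem GrM.mul {S : Set ℂ} (hS : ∀ y ∈ S, 1 ≤ |y.im|)
    {M M' : ℂ → Matrix (Fin N) (Fin N) ℂ} (h : GrM S M) (h' : GrM S M') :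
    GrM S (fun y => M y * M' y) := by
  intro i j
  simp only [Matrix.mul_apply]
  exact Gr.sum hS _ fun k => (h i k).mul (h' k j)

private theorem GrM.const {S : Set ℂ} (hS : ∀ y ∈ S, 1 ≤ |y.im|)
    (M : Matrix (Fin N) (Fin N) ℂ) : GrM S (fun _ => M) := fun i j => Gr.const hS (M i j)

private theorem Gr.union {S S' : Set ℂ} {f : ℂ → ℂ} (h : Gr S f) (h' : Gr S' f) :
    Gr (S ∪ S') f := by
  obtain ⟨C1, h1⟩ := h
  obtain ⟨C2, h2⟩ := h'
  refine ⟨max C1 C2, fun y hy => ?_⟩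
  have h3 : Real.exp (C1 * |y.im|) ≤ Real.exp (max C1 C2 * |y.im|) :=
    Real.exp_le_exp.2 (mul_le_mul_of_nonneg_right (le_max_left _ _) (abs_nonneg _))
  have h4 : Real.exp (C2 * |y.im|) ≤ Real.exp (max C1 C2 * |y.im|) :=
    Real.exp_le_exp.2 (mul_le_mul_of_nonneg_right (le_max_right _ _) (abs_nonneg _))
  rcases hy with hy | hy
  · exact (h1 y hy).trans h3
  · exact (h2 y hy).trans h4

private theorem evZ_gr (f : LaurentPolynomial ℤ) : Gr {y : ℂ | 1 ≤ |y.im|} (fun y => evZ y f) := by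
  have hS : ∀ y ∈ {y : ℂ | 1 ≤ |y.im|}, 1 ≤ |y.im| := fun y hy => hy
  induction f using LaurentPolynomial.induction_on' with
  | add p q hp hq =>
    simp only [map_add]
    exact Gr.add hS hp hq
  | C_mul_T n a =>
    refine Gr.of_le hS ‖(a : ℂ)‖ (2 * Real.pi * |(n : ℝ)|) fun y _ => ?_
    have h1 : evZ y (LaurentPolynomial.C a * LaurentPolynomial.T n) =
        (a : ℂ) * Complex.exp (n * (2 * Real.pi * Complex.I * y)) := by
      unfold evZ
      rw [LaurentPolynomial.eval₂_C_mul_T, Complex.exp_int_mul]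
      simp [qu]
    rw [h1, norm_mul, Complex.norm_exp]
    refine mul_le_mul_of_nonneg_left (Real.exp_le_exp.2 ?_) (norm_nonneg _)
    have h2 : ((n : ℂ) * (2 * Real.pi * Complex.I * y)).re = -(2 * Real.pi) * ((n : ℝ) * y.im) := by
      simp
      ring
    rw [h2]
    have h3 : |(n : ℝ) * y.im| = |(n : ℝ)| * |y.im| := abs_mul _ _
    have h4 := neg_abs_le ((n : ℝ) * y.im)
    have h5 := Real.pi_pos
    rw [h3] at h4
    nlinarith

theorem evZ_growth (f : LaurentPolynomial ℤ) : ∃ C : ℝ, ∀ y : ℂ, 1 ≤ |y.im| →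
    ‖evZ y f‖ ≤ Real.exp (C * |y.im|) := by
  obtain ⟨C, hC⟩ := evZ_gr f
  exact ⟨C, fun y hy => hC y hy⟩

private theorem norm_le_two {y : ℂ} (h : |y.re| ≤ |y.im|) : ‖y‖ ≤ 2 * |y.im| := by
  have := Complex.norm_le_abs_re_add_abs_im y
  linarith

private theorem gr_far (T : GQ N) {l : ℂ} (hl : 0 ≤ l.re) (a : ℝ) :
    GrM {y : ℂ | (|y.re| ≤ a ∧ 1 ≤ |y.im|) ∧ |y.re| ≤ |y.im|} (fun y => T.FG l y) := by
  set S : Set ℂ := {y : ℂ | (|y.re| ≤ a ∧ 1 ≤ |y.im|) ∧ |y.re| ≤ |y.im|} with hSdef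
  have hS : ∀ y ∈ S, 1 ≤ |y.im| := fun y hy => hy.1.2
  have him : ∀ y ∈ S, y.im ≠ 0 := by
    intro y hy h0
    have := hS y hy
    rw [h0, abs_zero] at this
    linarith
  have hform : ∀ y ∈ S, T.FG l y = Complex.exp (-((T.dim : ℂ) / 2) * Complex.log y) •
      (th T l * T.Rm⁻¹ * (T.Rm * T.Nn l y * T.Rm⁻¹) * Matrix.diagonal (T.Dp l y) * T.BT y) := by
    intro y hy
    rw [T.form l (him y hy)]
    have h1 : T.Rm⁻¹ * (T.Rm * T.Nn l y * T.Rm⁻¹) = T.Nn l y * T.Rm⁻¹ := by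
      have h2 : IsUnit T.Rm.det := isUnit_iff_ne_zero.2 T.det_Rm
      rw [Matrix.mul_assoc T.Rm, ← Matrix.mul_assoc T.Rm⁻¹, Matrix.nonsing_inv_mul _ h2,
        Matrix.one_mul]
    rw [Matrix.mul_assoc (th T l) T.Rm⁻¹, h1, Matrix.mul_assoc (th T l) (T.Nn l y)]
  have hM : GrM S (fun y => th T l * T.Rm⁻¹ * (T.Rm * T.Nn l y * T.Rm⁻¹) *
      Matrix.diagonal (T.Dp l y) * T.BT y) := by
    refine GrM.mul hS (GrM.mul hS (GrM.mul hS (GrM.const hS _) ?_) ?_) ?_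
    · intro p q
      obtain ⟨K, hK, hb⟩ := T.N_bound
      refine ⟨K * 2, fun y hy => ?_⟩
      refine ((hb y (him y hy) hy.2 l hl p q).1).trans (Real.exp_le_exp.2 ?_)
      have h1 : Real.exp (-l.re) ≤ 1 := Real.exp_le_one_iff.2 (by linarith)
      have h2 := norm_le_two hy.2
      have h3 : 0 ≤ K * ‖y‖ := mul_nonneg hK (norm_nonneg y)
      calc K * ‖y‖ * Real.exp (-l.re) ≤ K * ‖y‖ * 1 := mul_le_mul_of_nonneg_left h1 h3
        _ = K * ‖y‖ := mul_one _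
        _ ≤ K * (2 * |y.im|) := mul_le_mul_of_nonneg_left h2 hK
        _ = K * 2 * |y.im| := by ring
    · intro p q
      obtain ⟨C, hC⟩ := T.Dp_strip l a
      by_cases hpq : p = q
      · subst hpq
        simp only [Matrix.diagonal_apply_eq]
        exact ⟨C, fun y hy => hC y hy.1.1 hy.1.2 p⟩
      · simp only [Matrix.diagonal_apply_ne _ hpq]
        exact Gr.const hS 0
    · intro p i
      obtain ⟨C, hC⟩ := evZ_growth (T.B i p)
      exact ⟨C, fun y hy => hC y hy.1.2⟩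
  intro i j
  have hsc : Gr S (fun y => Complex.exp (-((T.dim : ℂ) / 2) * Complex.log y)) := by
    refine ⟨0, fun y hy => ?_⟩
    rw [zero_mul, Complex.norm_exp]
    refine Real.exp_le_exp.2 ?_
    have h1 : (-((T.dim : ℂ) / 2) * Complex.log y).re = -((T.dim : ℝ) / 2) * Real.log ‖y‖ := by
      have h2 : -((T.dim : ℂ) / 2) = ((-((T.dim : ℝ) / 2) : ℝ) : ℂ) := by push_cast; ring
      rw [h2, Complex.re_ofReal_mul, Complex.log_re]
    rw [h1]
    have h3 : 1 ≤ ‖y‖ := (hS y hy).trans (Complex.abs_im_le_norm y)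
    have h4 := Real.log_nonneg h3
    have h5 : (0 : ℝ) ≤ (T.dim : ℝ) / 2 := by positivity
    nlinarith [mul_nonneg h5 h4]
  obtain ⟨C, hC⟩ := Gr.mul hsc (hM i j)
  refine ⟨C, fun y hy => ?_⟩
  have h1 : T.FG l y i j = Complex.exp (-((T.dim : ℂ) / 2) * Complex.log y) *
      (th T l * T.Rm⁻¹ * (T.Rm * T.Nn l y * T.Rm⁻¹) *
      Matrix.diagonal (T.Dp l y) * T.BT y) i j := by
    rw [hform y hy, Matrix.smul_apply, smul_eq_mul]
  dsimp only
  rw [h1]
  exact hC y hy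

private theorem gr_near (T : GQ N) (l : ℂ) (a : ℝ) :
    GrM {y : ℂ | |y.re| ≤ a ∧ 1 ≤ |y.im| ∧ |y.im| ≤ a} (fun y => T.FG l y) := by
  intro i j
  have hcomp : IsCompact {y : ℂ | |y.re| ≤ a ∧ 1 ≤ |y.im| ∧ |y.im| ≤ a} := by
    refine Metric.isCompact_of_isClosed_isBounded ?_ ?_
    · have h1 : IsClosed {y : ℂ | |y.re| ≤ a} :=
        isClosed_le (Complex.continuous_re.abs) continuous_const
      have h2 : IsClosed {y : ℂ | 1 ≤ |y.im|} :=
        isClosed_le continuous_const (Complex.continuous_im.abs)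
      have h3 : IsClosed {y : ℂ | |y.im| ≤ a} :=
        isClosed_le (Complex.continuous_im.abs) continuous_const
      exact h1.inter (h2.inter h3)
    · refine (Metric.isBounded_closedBall (x := (0 : ℂ)) (r := 2 * a)).subset ?_
      rintro y ⟨h1, -, h3⟩
      rw [mem_closedBall_zero_iff]
      have := Complex.norm_le_abs_re_add_abs_im y
      linarith
  have hcont : ContinuousOn (fun y => T.FG l y i j)
      {y : ℂ | |y.re| ≤ a ∧ 1 ≤ |y.im| ∧ |y.im| ≤ a} := by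
    have h1 : ContinuousOn (fun y : ℂ => (y, l - Complex.log y))
        {y : ℂ | |y.re| ≤ a ∧ 1 ≤ |y.im| ∧ |y.im| ≤ a} := by
      refine continuousOn_id.prodMk (continuousOn_const.sub ?_)
      refine continuousOn_id.clog ?_
      intro y hy
      refine Complex.mem_slitPlane_iff.2 (Or.inr fun h0 => ?_)
      have h2 := hy.2.1
      have h3 : y.im = 0 := h0
      rw [h3, abs_zero] at h2
      linarith
    exact (T.J_entire i j).continuous.comp_continuousOn h1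
  obtain ⟨B, hB⟩ := hcomp.exists_bound_of_continuousOn hcont
  refine Gr.of_le (fun y hy => hy.2.1) B 0 fun y hy => ?_
  rw [zero_mul, Real.exp_zero, mul_one]
  exact hB y hy

theorem GQ.growth_big (T : GQ N) {l : ℂ} (hl : 0 ≤ l.re) (a : ℝ) : ∃ C : ℝ,
    ∀ y : ℂ, |y.re| ≤ a → 1 ≤ |y.im| → ∀ i j, ‖T.FG l y i j‖ ≤ Real.exp (C * |y.im|) := by
  have h : ∀ i j, ∃ C : ℝ, ∀ y ∈ ({y : ℂ | (|y.re| ≤ a ∧ 1 ≤ |y.im|) ∧ |y.re| ≤ |y.im|} ∪
      {y : ℂ | |y.re| ≤ a ∧ 1 ≤ |y.im| ∧ |y.im| ≤ a}), ‖T.FG l y i j‖ ≤ Real.exp (C * |y.im|) :=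
    fun i j => Gr.union (gr_far T hl a i j) (gr_near T l a i j)
  choose C hC using h
  refine ⟨∑ i, ∑ j, |C i j|, fun y h1 h2 i j => ?_⟩
  have hy : y ∈ ({y : ℂ | (|y.re| ≤ a ∧ 1 ≤ |y.im|) ∧ |y.re| ≤ |y.im|} ∪
      {y : ℂ | |y.re| ≤ a ∧ 1 ≤ |y.im| ∧ |y.im| ≤ a}) := by
    by_cases h3 : |y.re| ≤ |y.im|
    · exact Or.inl ⟨⟨h1, h2⟩, h3⟩
    · exact Or.inr ⟨h1, h2, by linarith⟩
  refine (hC i j y hy).trans (Real.exp_le_exp.2 (mul_le_mul_of_nonneg_right ?_ (abs_nonneg _)))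
  refine (le_abs_self _).trans ?_
  have h4 : |C i j| ≤ ∑ j, |C i j| :=
    Finset.single_le_sum (f := fun j => |C i j|) (fun _ _ => abs_nonneg _) (Finset.mem_univ j)
  exact h4.trans (Finset.single_le_sum (f := fun i => ∑ j, |C i j|)
    (fun _ _ => Finset.sum_nonneg fun _ _ => abs_nonneg _) (Finset.mem_univ i))

end Pool.Agent.FLG.Dl
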