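import Pool.Agent.FLG.D.DNlim
import Pool.Agent.FLG.D.DPoly
import Pool.Agent.DST.DCone

/-!
# FLG-D-DNbd: bounds for `N(l, y)` in the cone `|re y| ≤ |im y|`

PLAN. Put `M l = Rm * Nn l y * Rm⁻¹`, `Mi l = Rm * (Nn l y)⁻¹ * Rm⁻¹`, `Wd = diagonal cw`, so
`Rm * W = Wd * Rm` (`Rm_W`) and `W * Rm⁻¹ = Rm⁻¹ * Wd`, and `ℰ l = Rm * (Ah l - W) * Rm⁻¹`, whose
entries are at most `K₁ e^{-re l}` for `0 ≤ re l` (`Ah_sub`). By `Nn_ode`, `Ni_ode`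
`M' = y (M Wd - Wd M) - y ℰ M`, `Mi' = y (Mi Wd - Wd Mi) + y Mi ℰ`; entry `(p, q)` of
`M Wd - Wd M` is `(cw q - cw p) M p q`. Apply `cone_bound` with `c = cw`, `R = -ℰ M` resp. `R = Mi ℰ`,
`K₀ = N K₁`; `hb`, `hlim` from `Nn_bdd`, `Nn_lim`, `Ni_bdd`, `Ni_lim` (conjugation by the constant
matrix `Rm`; `Rm * 1 * Rm⁻¹ = 1`). The constant `K = 4 K₀` does not depend on `y`.
`FG_form_inv`: rewrite `T.form` as `diagonal (Dp l y) * BT y = exp((d/2) log y) • (Rm * (Nn l y)⁻¹ * th T (-l) *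
FG l y)`, and write `Rm * (Nn l y)⁻¹ = Mi * Rm`.
-/

open scoped BigOperators Topology
open Filter

namespace Pool.Agent.FLG.Dl

open Pool.Agent.DST Pool.Agent.FLG

variable {N : ℕ} {T : GQ N}

private theorem entry3 (A Z B : Matrix (Fin N) (Fin N) ℂ) (p q : Fin N) :
    (A * Z * B) p q = ∑ j, ∑ i, A p i * Z i j * B j q := by
  rw [Matrix.mul_apply]
  refine Finset.sum_congr rfl fun j _ => ?_
  rw [Matrix.mul_apply, Finset.sum_mul]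

private theorem bound3 (A B : Matrix (Fin N) (Fin N) ℂ) : ∃ C : ℝ, 0 ≤ C ∧
    ∀ (Z : Matrix (Fin N) (Fin N) ℂ) (m : ℝ), 0 ≤ m → (∀ i j, ‖Z i j‖ ≤ m) →
      ∀ p q, ‖(A * Z * B) p q‖ ≤ C * m := by
  refine ⟨∑ p, ∑ q, ∑ j, ∑ i, ‖A p i‖ * ‖B j q‖, ?_, ?_⟩
  · positivity
  · intro Z m hm hZ p q
    have h1 : ‖(A * Z * B) p q‖ ≤ (∑ j, ∑ i, ‖A p i‖ * ‖B j q‖) * m := by
      rw [entry3, Finset.sum_mul]
      refine (norm_sum_le _ _).trans (Finset.sum_le_sum fun j _ => ?_)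
      rw [Finset.sum_mul]
      refine (norm_sum_le _ _).trans (Finset.sum_le_sum fun i _ => ?_)
      rw [norm_mul, norm_mul]
      have h2 : ‖A p i‖ * ‖Z i j‖ * ‖B j q‖ = ‖A p i‖ * ‖B j q‖ * ‖Z i j‖ := by ring
      rw [h2]
      exact mul_le_mul_of_nonneg_left (hZ i j) (by positivity)
    refine h1.trans (mul_le_mul_of_nonneg_right ?_ hm)
    have h3 : (∑ j, ∑ i, ‖A p i‖ * ‖B j q‖) ≤ ∑ q, ∑ j, ∑ i, ‖A p i‖ * ‖B j q‖ :=
      Finset.single_le_sum (f := fun q => ∑ j, ∑ i, ‖A p i‖ * ‖B j q‖)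
        (fun _ _ => by positivity) (Finset.mem_univ q)
    refine h3.trans ?_
    exact Finset.single_le_sum (f := fun p => ∑ q, ∑ j, ∑ i, ‖A p i‖ * ‖B j q‖)
        (fun _ _ => by positivity) (Finset.mem_univ p)

private theorem deriv3 {A B : Matrix (Fin N) (Fin N) ℂ} {Z Z' : ℂ → Matrix (Fin N) (Fin N) ℂ}
    {l : ℂ} (h : ∀ i j, HasDerivAt (fun l => Z l i j) (Z' l i j) l) (p q : Fin N) :
    HasDerivAt (fun l => (A * Z l * B) p q) ((A * Z' l * B) p q) l := by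
  have h1 : (fun l => (A * Z l * B) p q) = fun l => ∑ j, ∑ i, A p i * Z l i j * B j q := by
    funext l
    exact entry3 _ _ _ _ _
  rw [h1, entry3]
  refine HasDerivAt.fun_sum fun j _ => HasDerivAt.fun_sum fun i _ => ?_
  exact ((h i j).const_mul (A p i)).mul_const (B j q)

private theorem mulBound {E Z : Matrix (Fin N) (Fin N) ℂ} {a m : ℝ} (hE : ∀ i j, ‖E i j‖ ≤ a)
    (hZ : ∀ i j, ‖Z i j‖ ≤ m) (p q : Fin N) : ‖(E * Z) p q‖ ≤ (N : ℝ) * a * m := by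
  rw [Matrix.mul_apply]
  have h1 : ∀ k ∈ Finset.univ, ‖E p k * Z k q‖ ≤ a * m := fun k _ => by
    rw [norm_mul]
    exact mul_le_mul (hE p k) (hZ k q) (norm_nonneg _) ((norm_nonneg _).trans (hE p k))
  have h2 := norm_sum_le_of_le Finset.univ h1
  refine h2.trans (le_of_eq ?_)
  rw [Finset.sum_const, Finset.card_univ, Fintype.card_fin, nsmul_eq_mul]
  ring

private theorem unitRm (T : GQ N) : IsUnit T.Rm.det := isUnit_iff_ne_zero.2 T.det_Rm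

/-- the matrix `ℰ l` -/
private noncomputable def er (T : GQ N) (l : ℂ) : Matrix (Fin N) (Fin N) ℂ :=
  T.Rm * (T.Ah l - T.W) * T.Rm⁻¹

private theorem er_eq (T : GQ N) (l : ℂ) : T.Rm * T.Ah l * T.Rm⁻¹ =
    Matrix.diagonal (fun p => (T.cw p : ℂ)) + er T l := by
  have h1 : T.Rm * T.W * T.Rm⁻¹ = Matrix.diagonal (fun p => (T.cw p : ℂ)) := by
    rw [T.Rm_W, Matrix.mul_nonsing_inv_cancel_right _ _ (unitRm T)]
  rw [er, Matrix.mul_sub, Matrix.sub_mul, h1]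
  abel

private theorem W_inv (T : GQ N) : T.W * T.Rm⁻¹ =
    T.Rm⁻¹ * Matrix.diagonal (fun p => (T.cw p : ℂ)) := by
  have h1 : T.Rm⁻¹ * (T.Rm * T.W) * T.Rm⁻¹ =
      T.Rm⁻¹ * (Matrix.diagonal (fun p => (T.cw p : ℂ)) * T.Rm) * T.Rm⁻¹ := by
    rw [T.Rm_W]
  rw [Matrix.nonsing_inv_mul_cancel_left _ _ (unitRm T), ← Matrix.mul_assoc,
    Matrix.mul_nonsing_inv_cancel_right _ _ (unitRm T)] at h1
  exact h1

private theorem er_bound (T : GQ N) : ∃ K : ℝ, 0 ≤ K ∧ ∀ l : ℂ, 0 ≤ l.re → ∀ i j,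
    ‖er T l i j‖ ≤ K * Real.exp (-l.re) := by
  obtain ⟨K, hK, h⟩ := T.Ah_sub
  obtain ⟨C, hC, h'⟩ := bound3 T.Rm T.Rm⁻¹
  refine ⟨C * K, by positivity, fun l hl i j => ?_⟩
  have h1 := h' (T.Ah l - T.W) (K * Real.exp (-l.re)) (by positivity) (h l hl) i j
  rw [mul_assoc]
  exact h1

private theorem conjNn (T : GQ N) (l y : ℂ) :
    T.Rm * (y • (T.Nn l y * T.W - T.Ah l * T.Nn l y)) * T.Rm⁻¹ =
      y • ((T.Rm * T.Nn l y * T.Rm⁻¹) * Matrix.diagonal (fun p => (T.cw p : ℂ)) -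
        Matrix.diagonal (fun p => (T.cw p : ℂ)) * (T.Rm * T.Nn l y * T.Rm⁻¹) -
        er T l * (T.Rm * T.Nn l y * T.Rm⁻¹)) := by
  have h1 : T.Rm * (T.Nn l y * T.W) * T.Rm⁻¹ =
      (T.Rm * T.Nn l y * T.Rm⁻¹) * Matrix.diagonal (fun p => (T.cw p : ℂ)) := by
    rw [← Matrix.mul_assoc, Matrix.mul_assoc (T.Rm * T.Nn l y), W_inv, ← Matrix.mul_assoc]
  have h2 : T.Rm * (T.Ah l * T.Nn l y) * T.Rm⁻¹ =
      (Matrix.diagonal (fun p => (T.cw p : ℂ)) + er T l) * (T.Rm * T.Nn l y * T.Rm⁻¹) := by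
    rw [← er_eq]
    simp only [Matrix.mul_assoc]
    rw [Matrix.nonsing_inv_mul_cancel_left _ _ (unitRm T)]
  rw [Matrix.mul_smul, Matrix.smul_mul, Matrix.mul_sub, Matrix.sub_mul, h1, h2, Matrix.add_mul]
  congr 1
  abel

private theorem conjNi (T : GQ N) (l y : ℂ) :
    T.Rm * (y • ((T.Nn l y)⁻¹ * T.Ah l - T.W * (T.Nn l y)⁻¹)) * T.Rm⁻¹ =
      y • ((T.Rm * (T.Nn l y)⁻¹ * T.Rm⁻¹) * Matrix.diagonal (fun p => (T.cw p : ℂ)) -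
        Matrix.diagonal (fun p => (T.cw p : ℂ)) * (T.Rm * (T.Nn l y)⁻¹ * T.Rm⁻¹) +
        (T.Rm * (T.Nn l y)⁻¹ * T.Rm⁻¹) * er T l) := by
  have h1 : T.Rm * ((T.Nn l y)⁻¹ * T.Ah l) * T.Rm⁻¹ =
      (T.Rm * (T.Nn l y)⁻¹ * T.Rm⁻¹) * (Matrix.diagonal (fun p => (T.cw p : ℂ)) + er T l) := by
    rw [← er_eq]
    simp only [Matrix.mul_assoc]
    rw [Matrix.nonsing_inv_mul_cancel_left _ _ (unitRm T)]
  have h2 : T.Rm * (T.W * (T.Nn l y)⁻¹) * T.Rm⁻¹ =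
      Matrix.diagonal (fun p => (T.cw p : ℂ)) * (T.Rm * (T.Nn l y)⁻¹ * T.Rm⁻¹) := by
    rw [← Matrix.mul_assoc T.Rm T.W, T.Rm_W]
    simp only [Matrix.mul_assoc]
  rw [Matrix.mul_smul, Matrix.smul_mul, Matrix.mul_sub, Matrix.sub_mul, h1, h2, Matrix.mul_add]
  congr 1
  abel

private theorem lim3 (T : GQ N) {Z : ℂ → Matrix (Fin N) (Fin N) ℂ}
    (h : ∀ ε > 0, ∃ L : ℝ, ∀ l : ℂ,
      L ≤ l.re → ∀ i j, ‖Z l i j - (1 : Matrix (Fin N) (Fin N) ℂ) i j‖ < ε) :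
    ∀ ε > 0, ∃ L : ℝ, ∀ l : ℂ, L ≤ l.re →
      ∀ i j, ‖(T.Rm * Z l * T.Rm⁻¹) i j - (1 : Matrix (Fin N) (Fin N) ℂ) i j‖ < ε := by
  intro ε hε
  obtain ⟨C, hC, h'⟩ := bound3 T.Rm T.Rm⁻¹
  obtain ⟨L, hL⟩ := h (ε / (C + 1)) (by positivity)
  refine ⟨L, fun l hl i j => ?_⟩
  have h1 : T.Rm * Z l * T.Rm⁻¹ - 1 = T.Rm * (Z l - 1) * T.Rm⁻¹ := by
    rw [Matrix.mul_sub, Matrix.sub_mul, Matrix.mul_one, Matrix.mul_nonsing_inv _ (unitRm T)]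
  have h2 := h' (Z l - 1) (ε / (C + 1)) (by positivity)
    (fun i j => by rw [Matrix.sub_apply]; exact (hL l hl i j).le) i j
  rw [← h1, Matrix.sub_apply] at h2
  refine lt_of_le_of_lt h2 ?_
  rw [mul_div_assoc', div_lt_iff₀ (by positivity)]
  nlinarith

private theorem bdd3 (T : GQ N) {Z : ℂ → Matrix (Fin N) (Fin N) ℂ}
    (h : ∃ m : ℝ, ∀ l : ℂ, 0 ≤ l.re → ∀ i j, ‖Z l i j‖ ≤ m) :
    ∃ m : ℝ, ∀ l : ℂ, 0 ≤ l.re → ∀ i j, ‖(T.Rm * Z l * T.Rm⁻¹) i j‖ ≤ m := by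
  obtain ⟨m, hm⟩ := h
  obtain ⟨C, hC, h'⟩ := bound3 T.Rm T.Rm⁻¹
  exact ⟨C * max m 0, fun l hl i j => h' (Z l) (max m 0) (le_max_right _ _)
    (fun i j => (hm l hl i j).trans (le_max_left _ _)) i j⟩

theorem GQ.N_bound (T : GQ N) : ∃ K : ℝ, 0 ≤ K ∧ ∀ y : ℂ, y.im ≠ 0 →
    |y.re| ≤ |y.im| → ∀ l : ℂ, 0 ≤ l.re → ∀ p q,
      ‖(T.Rm * T.Nn l y * T.Rm⁻¹) p q‖ ≤ Real.exp (K * ‖y‖ * Real.exp (-l.re)) ∧
      ‖(T.Rm * (T.Nn l y)⁻¹ * T.Rm⁻¹) p q‖ ≤ Real.exp (K * ‖y‖ * Real.exp (-l.re)) := by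
  obtain ⟨K₁, hK₁, hE⟩ := er_bound T
  refine ⟨4 * (N * K₁), by positivity, fun y hy hcone l hl p q => ⟨?_, ?_⟩⟩
  · refine cone_bound (c := T.cw) hcone (K₀ := N * K₁) (by positivity)
      (M := fun l => T.Rm * T.Nn l y * T.Rm⁻¹)
      (R := fun l => -(er T l * (T.Rm * T.Nn l y * T.Rm⁻¹))) ?_ ?_ ?_ ?_ l hl p q
    · intro l _ p q
      have h1 := deriv3 (A := T.Rm) (B := T.Rm⁻¹) (Z := fun l => T.Nn l y)
        (Z' := fun l => y • (T.Nn l y * T.W - T.Ah l * T.Nn l y)) (fun i j => T.Nn_ode hy l i j) p q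
      refine h1.congr_deriv ?_
      simp only [conjNn]
      rw [Matrix.smul_apply, Matrix.sub_apply, Matrix.sub_apply, Matrix.mul_diagonal,
        Matrix.diagonal_mul, Matrix.neg_apply, smul_eq_mul]
      ring
    · intro l hl m hm p q
      simp only [Matrix.neg_apply, norm_neg]
      refine (mulBound (hE l hl) hm p q).trans (le_of_eq ?_)
      ring
    · exact bdd3 T (T.Nn_bdd hy)
    · exact lim3 T (T.Nn_lim hy)
  · refine cone_bound (c := T.cw) hcone (K₀ := N * K₁) (by positivity)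
      (M := fun l => T.Rm * (T.Nn l y)⁻¹ * T.Rm⁻¹)
      (R := fun l => (T.Rm * (T.Nn l y)⁻¹ * T.Rm⁻¹) * er T l) ?_ ?_ ?_ ?_ l hl p q
    · intro l _ p q
      have h1 := deriv3 (A := T.Rm) (B := T.Rm⁻¹) (Z := fun l => (T.Nn l y)⁻¹)
        (Z' := fun l => y • ((T.Nn l y)⁻¹ * T.Ah l - T.W * (T.Nn l y)⁻¹))
        (fun i j => T.Ni_ode hy l i j) p q
      refine h1.congr_deriv ?_
      simp only [conjNi]
      rw [Matrix.smul_apply, Matrix.add_apply, Matrix.sub_apply, Matrix.mul_diagonal,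
        Matrix.diagonal_mul, smul_eq_mul]
      ring
    · intro l hl m hm p q
      refine (mulBound hm (hE l hl) p q).trans (le_of_eq ?_)
      ring
    · exact bdd3 T (T.Ni_bdd hy)
    · exact lim3 T (T.Ni_lim hy)

theorem GQ.form_inv (T : GQ N) (l : ℂ) {y : ℂ} (hy : y.im ≠ 0) :
    Matrix.diagonal (T.Dp l y) * T.BT y = Complex.exp (((T.dim : ℂ) / 2) * Complex.log y) •
      ((T.Rm * (T.Nn l y)⁻¹ * T.Rm⁻¹) * T.Rm * th T (-l) * T.FG l y) := by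
  have hN : IsUnit (T.Nn l y).det := isUnit_iff_ne_zero.2 (T.Nn_det l hy)
  rw [T.form l hy, Matrix.mul_smul, smul_smul, ← Complex.exp_add]
  have h1 : (T.dim : ℂ) / 2 * Complex.log y + -((T.dim : ℂ) / 2) * Complex.log y = 0 := by ring
  rw [h1, Complex.exp_zero, one_smul, Matrix.nonsing_inv_mul_cancel_right _ _ (unitRm T)]
  have h2 : T.Rm * (T.Nn l y)⁻¹ * th T (-l) *
      (th T l * T.Nn l y * T.Rm⁻¹ * Matrix.diagonal (T.Dp l y) * T.BT y) =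
      T.Rm * ((T.Nn l y)⁻¹ * ((th T (-l) * th T l) *
      (T.Nn l y * (T.Rm⁻¹ * (Matrix.diagonal (T.Dp l y) * T.BT y))))) := by
    simp only [Matrix.mul_assoc]
  rw [h2, th_neg_mul, Matrix.one_mul, Matrix.nonsing_inv_mul_cancel_left _ _ hN,
    Matrix.mul_nonsing_inv_cancel_left _ _ (unitRm T)]

end Pool.Agent.FLG.Dl
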