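import Pool.Agent.FLG.D.DNode

/-!
# FLG-D-DNlim: `N(l, y)` and its inverse tend to `1` as `Re l → ∞` and are bounded on `Re l ≥ 0`

PLAN. `y` is fixed, `y.im ≠ 0`. `‖exp(l - log y)‖ = exp(re l - log‖y‖) → ∞` as `re l → ∞`, so
`cal y (exp(l - log y)) → 1` uniformly (`T.cal_lim`: `Metric.tendsto_nhds` and
`Filter.eventually_cobounded…`: for every `ε` there is `r` with `‖cal y z i j - 1 i j‖ < ε` for `r ≤ ‖z‖`),
and `Nn = th (-log y) * cal * th (log y)` with `th (-log y) * 1 * th (log y) = 1`; the entries of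
`th (∓log y)` are constants. This is `Nn_lim`.
`Ni_lim`: the inverse is continuous at `1` (entries of the inverse = `det⁻¹ * adjugate`, continuous).
Use filters: `Tendsto (fun l => Nn l y i j) (comap re atTop) (𝓝 (1 i j))` for all `i j` implies the same
for `(Nn l y)⁻¹`.
Bounded on `{0 ≤ re l}`: by the limit there is `L` with entries at most `2` for `L ≤ re l`. For
`0 ≤ re l ≤ L`: the function is `2πi`-periodic in `l` (`exp(l - log y)` is; so also for the inverse) and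
continuous (`Nn_ode`, `Ni_ode`), hence bounded on the compact rectangle `[0, L] × [0, 2π]` and every `l`
is congruent to a point of it (`toIcoMod` or `Int.fract`).
-/

open scoped BigOperators Topology
open Filter

namespace Pool.Agent.FLG.Dl

open Pool.Agent.DST Pool.Agent.FLG

variable {N : ℕ} {T : GQ N}

private theorem tcal (T : GQ N) {y : ℂ} (hy : y.im ≠ 0) :
    Tendsto (fun l => T.Nn l y) (comap Complex.re atTop) (𝓝 1) := by
  have h1 : Tendsto (fun l : ℂ => Complex.exp (l - Complex.log y)) (comap Complex.re atTop)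
      (Bornology.cobounded ℂ) := by
    rw [← tendsto_norm_atTop_iff_cobounded]
    have h : (fun l : ℂ => ‖Complex.exp (l - Complex.log y)‖) = fun l : ℂ =>
        Real.exp (l.re + -(Complex.log y).re) := by
      funext l
      rw [Complex.norm_exp, Complex.sub_re, sub_eq_add_neg]
    rw [h]
    exact Real.tendsto_exp_atTop.comp (tendsto_atTop_add_const_right _ _ tendsto_comap)
  have h2 : Tendsto (fun l => T.cal y (Complex.exp (l - Complex.log y))) (comap Complex.re atTop)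
      (𝓝 1) := by
    refine tendsto_pi_nhds.2 fun i => tendsto_pi_nhds.2 fun j => ?_
    exact (T.cal_lim y hy i j).comp h1
  have h3 : Tendsto (fun l => T.Nn l y) (comap Complex.re atTop)
      (𝓝 (th T (-Complex.log y) * 1 * th T (Complex.log y))) :=
    (h2.const_mul (th T (-Complex.log y))).mul_const (th T (Complex.log y))
  have h4 : th T (-Complex.log y) * 1 * th T (Complex.log y) = 1 := by
    rw [mul_one]
    unfold th
    rw [Matrix.diagonal_mul_diagonal, ← Matrix.diagonal_one]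
    congr 1
    ext a
    rw [← Complex.exp_add, neg_mul, neg_add_cancel, Complex.exp_zero]
  rwa [h4] at h3

private theorem tinv (T : GQ N) {y : ℂ} (hy : y.im ≠ 0) :
    Tendsto (fun l => (T.Nn l y)⁻¹) (comap Complex.re atTop) (𝓝 1) := by
  have h1 : ContinuousAt (Inv.inv : Matrix (Fin N) (Fin N) ℂ → Matrix (Fin N) (Fin N) ℂ) 1 := by
    refine continuousAt_matrix_inv _ ?_
    rw [Ring.inverse_eq_inv', Matrix.det_one]
    exact continuousAt_inv₀ one_ne_zero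
  have h2 := h1.tendsto.comp (tcal T hy)
  rwa [inv_one] at h2

private theorem lim_of {f : ℂ → Matrix (Fin N) (Fin N) ℂ}
    (h : Tendsto f (comap Complex.re atTop) (𝓝 1)) : ∀ ε > 0, ∃ L : ℝ, ∀ l : ℂ,
    L ≤ l.re → ∀ i j, ‖f l i j - (1 : Matrix (Fin N) (Fin N) ℂ) i j‖ < ε := by
  intro ε hε
  have h1 : ∀ᶠ l in comap Complex.re atTop, ∀ i j,
      ‖f l i j - (1 : Matrix (Fin N) (Fin N) ℂ) i j‖ < ε := by
    rw [eventually_all]
    intro i
    rw [eventually_all]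
    intro j
    have h2 := (tendsto_pi_nhds.1 ((tendsto_pi_nhds.1 h) i)) j
    have h3 := (Metric.tendsto_nhds.1 h2) ε hε
    filter_upwards [h3] with l hl
    rwa [dist_eq_norm] at hl
  rw [eventually_comap, eventually_atTop] at h1
  obtain ⟨L, hL⟩ := h1
  exact ⟨L, fun l hl => hL l.re hl l rfl⟩

private theorem bdd_of {f : ℂ → ℂ} (hc : Continuous f)
    (hp : Function.Periodic f (2 * Real.pi * Complex.I)) (c : ℂ)
    (hl : ∃ L : ℝ, ∀ l : ℂ, L ≤ l.re → ‖f l - c‖ < 1) :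
    ∃ m : ℝ, ∀ l : ℂ, 0 ≤ l.re → ‖f l‖ ≤ m := by
  obtain ⟨L, hL⟩ := hl
  have hK : IsCompact (Set.Icc (0 : ℝ) L ×ℂ Set.Icc (0 : ℝ) (2 * Real.pi)) :=
    isCompact_Icc.reProdIm isCompact_Icc
  obtain ⟨m, hm⟩ := hK.exists_bound_of_continuousOn hc.continuousOn
  refine ⟨max m (‖c‖ + 1), fun l hl0 => ?_⟩
  rcases le_total L l.re with h | h
  · have h1 := hL l h
    have h2 : ‖f l‖ ≤ ‖f l - c‖ + ‖c‖ := by
      have := norm_add_le (f l - c) c
      rwa [sub_add_cancel] at this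
    exact le_max_of_le_right (by linarith)
  · have hpi : 0 < 2 * Real.pi := by positivity
    have h1 := hp.sub_int_mul_eq (x := l) ⌊l.im / (2 * Real.pi)⌋
    have hre : (l - (⌊l.im / (2 * Real.pi)⌋ : ℂ) * (2 * Real.pi * Complex.I)).re = l.re := by
      simp
    have him : (l - (⌊l.im / (2 * Real.pi)⌋ : ℂ) * (2 * Real.pi * Complex.I)).im =
        l.im - ⌊l.im / (2 * Real.pi)⌋ * (2 * Real.pi) := by
      simp
    have h3 : (⌊l.im / (2 * Real.pi)⌋ : ℝ) * (2 * Real.pi) ≤ l.im := by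
      rw [← le_div_iff₀ hpi]
      exact Int.floor_le _
    have h4 : l.im < ((⌊l.im / (2 * Real.pi)⌋ : ℝ) + 1) * (2 * Real.pi) := by
      rw [← div_lt_iff₀ hpi]
      exact Int.lt_floor_add_one _
    rw [← h1]
    refine le_max_of_le_left (hm _ ?_)
    rw [Complex.mem_reProdIm, hre, him]
    exact ⟨⟨hl0, h⟩, ⟨by linarith, by linarith⟩⟩

private theorem Nn_per (T : GQ N) (l y : ℂ) :
    T.Nn (l + 2 * Real.pi * Complex.I) y = T.Nn l y := by
  unfold GQ.Nn
  have h : l + 2 * Real.pi * Complex.I - Complex.log y =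
      (l - Complex.log y) + 2 * Real.pi * Complex.I := by ring
  rw [h, Complex.exp_periodic]

private theorem bdd_all {f : ℂ → Matrix (Fin N) (Fin N) ℂ}
    (h : ∀ i j, ∃ m : ℝ, ∀ l : ℂ, 0 ≤ l.re → ‖f l i j‖ ≤ m) :
    ∃ m : ℝ, ∀ l : ℂ, 0 ≤ l.re → ∀ i j, ‖f l i j‖ ≤ m := by
  choose m hm using h
  refine ⟨∑ i, ∑ j, |m i j|, fun l hl i j => ?_⟩
  have h1 := hm i j l hl
  have h2 : |m i j| ≤ ∑ j, |m i j| :=
    Finset.single_le_sum (f := fun j => |m i j|) (fun _ _ => abs_nonneg _) (Finset.mem_univ j)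
  have h3 : (∑ j, |m i j|) ≤ ∑ i, ∑ j, |m i j| :=
    Finset.single_le_sum (f := fun i => ∑ j, |m i j|)
      (fun _ _ => Finset.sum_nonneg fun _ _ => abs_nonneg _) (Finset.mem_univ i)
  have h4 := le_abs_self (m i j)
  linarith

theorem GQ.Nn_lim (T : GQ N) {y : ℂ} (hy : y.im ≠ 0) : ∀ ε > 0, ∃ L : ℝ, ∀ l : ℂ,
    L ≤ l.re → ∀ i j, ‖T.Nn l y i j - (1 : Matrix (Fin N) (Fin N) ℂ) i j‖ < ε :=
  lim_of (tcal T hy)

theorem GQ.Ni_lim (T : GQ N) {y : ℂ} (hy : y.im ≠ 0) : ∀ ε > 0, ∃ L : ℝ, ∀ l : ℂ,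
    L ≤ l.re → ∀ i j, ‖(T.Nn l y)⁻¹ i j - (1 : Matrix (Fin N) (Fin N) ℂ) i j‖ < ε :=
  lim_of (tinv T hy)

theorem GQ.Nn_bdd (T : GQ N) {y : ℂ} (hy : y.im ≠ 0) : ∃ m : ℝ, ∀ l : ℂ,
    0 ≤ l.re → ∀ i j, ‖T.Nn l y i j‖ ≤ m := by
  refine bdd_all (f := fun l => T.Nn l y) fun i j => ?_
  refine bdd_of (f := fun l => T.Nn l y i j)
    (continuous_iff_continuousAt.2 fun l => (T.Nn_ode hy l i j).continuousAt) (fun l => ?_)
    ((1 : Matrix (Fin N) (Fin N) ℂ) i j) ?_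
  · change T.Nn (l + 2 * Real.pi * Complex.I) y i j = T.Nn l y i j
    rw [Nn_per]
  · obtain ⟨L, hL⟩ := T.Nn_lim hy 1 one_pos
    exact ⟨L, fun l hl => hL l hl i j⟩

theorem GQ.Ni_bdd (T : GQ N) {y : ℂ} (hy : y.im ≠ 0) : ∃ m : ℝ, ∀ l : ℂ,
    0 ≤ l.re → ∀ i j, ‖(T.Nn l y)⁻¹ i j‖ ≤ m := by
  refine bdd_all (f := fun l => (T.Nn l y)⁻¹) fun i j => ?_
  refine bdd_of (f := fun l => (T.Nn l y)⁻¹ i j)
    (continuous_iff_continuousAt.2 fun l => (T.Ni_ode hy l i j).continuousAt) (fun l => ?_)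
    ((1 : Matrix (Fin N) (Fin N) ℂ) i j) ?_
  · change (T.Nn (l + 2 * Real.pi * Complex.I) y)⁻¹ i j = (T.Nn l y)⁻¹ i j
    rw [Nn_per]
  · obtain ⟨L, hL⟩ := T.Ni_lim hy 1 one_pos
    exact ⟨L, fun l hl => hL l hl i j⟩

end Pool.Agent.FLG.Dl
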