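import Pool.Agent.FLG.D.DPair
import Pool.Agent.DST.SHol

/-!
# FLG-D-DNode: the differential equation for `N(l, y)`

Fix `y` with `y.im ≠ 0`; `FG l y = J y (l - log y)`. `BT_det`, `Nn_det`: determinants in `T.form`.
Only `th T (-l) * FG l y` and `diagonal (Dp l y)⁻¹` depend on `l` in
`Nn l y = exp((d/2) log y) • (th T (-l) * FG l y * (BT y)⁻¹ * diagonal ((Dp l y)⁻¹) * Rm)`.
-/

open scoped BigOperators Topology
open Filter

namespace Pool.Agent.FLG.Dl

open Pool.Agent.DST Pool.Agent.FLG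

variable {N : ℕ} {T : GQ N}

theorem GQ.Dp_ne (T : GQ N) (l : ℂ) {y : ℂ} (hy : y.im ≠ 0) (p : Fin N) :
    T.Dp l y p ≠ 0 := by
  unfold GQ.Dp
  refine mul_ne_zero (Complex.exp_ne_zero _) (Finset.prod_ne_zero_iff.2 fun k _ => ?_)
  refine Complex.Gamma_ne_zero fun m h => ?_
  have h1 := congrArg Complex.im h
  simp only [Complex.sub_im, Complex.one_im, Complex.mul_im, Complex.intCast_re,
    Complex.intCast_im, Complex.neg_im, Complex.natCast_im, zero_mul, add_zero, zero_sub,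
    neg_zero] at h1
  have h2 : ((T.wt p k : ℤ) : ℝ) ≠ 0 := by exact_mod_cast T.wt_ne p k
  exact mul_ne_zero h2 hy (neg_eq_zero.1 h1)

private theorem form_det (T : GQ N) (l : ℂ) {y : ℂ} (hy : y.im ≠ 0) :
    (T.Nn l y).det ≠ 0 ∧ (T.BT y).det ≠ 0 := by
  have h1 : (T.FG l y).det ≠ 0 := T.J_det y _
  rw [T.form l hy, Matrix.det_smul, Matrix.det_mul, Matrix.det_mul, Matrix.det_mul,
    Matrix.det_mul] at h1
  constructor
  · intro h
    rw [h] at h1
    simp at h1
  · intro h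
    rw [h] at h1
    simp at h1

theorem GQ.BT_det (T : GQ N) {y : ℂ} (hy : y.im ≠ 0) : (T.BT y).det ≠ 0 :=
  (form_det T 0 hy).2

theorem GQ.Nn_det (T : GQ N) (l : ℂ) {y : ℂ} (hy : y.im ≠ 0) :
    (T.Nn l y).det ≠ 0 :=
  (form_det T l hy).1

theorem GQ.FG_ode (T : GQ N) {y : ℂ} (hy : y ≠ 0) (l : ℂ) (i j : Fin N) :
    HasDerivAt (fun l => T.FG l y i j)
      (((theta T - (y * Complex.exp (-l)) • T.C (Complex.exp l)) *
        T.FG l y) i j) l := by
  have h1 := HasDerivAt.comp_sub_const l (Complex.log y) (T.ode y (l - Complex.log y) i j)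
  have e1 : y * Complex.exp (l - Complex.log y) = Complex.exp l := by
    rw [Complex.exp_sub, Complex.exp_log hy]
    field_simp
  have e2 : Complex.exp (-(l - Complex.log y)) = y * Complex.exp (-l) := by
    rw [neg_sub, sub_eq_add_neg, Complex.exp_add, Complex.exp_log hy]
  rw [e1, e2] at h1
  exact h1

/-- `th T (-l) * FG l y` -/
private noncomputable def Pf (T : GQ N) (y l : ℂ) : Matrix (Fin N) (Fin N) ℂ :=
  th T (-l) * T.FG l y

/-- `(BT y)⁻¹ * diagonal (Dp l y)⁻¹ * Rm` -/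
private noncomputable def Qf (T : GQ N) (y l : ℂ) : Matrix (Fin N) (Fin N) ℂ :=
  (T.BT y)⁻¹ * (Matrix.diagonal (fun p => (T.Dp l y p)⁻¹) * T.Rm)

private theorem Nn_eq (T : GQ N) {y : ℂ} (hy : y.im ≠ 0) (l : ℂ) :
    T.Nn l y = Complex.exp ((T.dim : ℂ) / 2 * Complex.log y) • (Pf T y l * Qf T y l) := by
  have hB : IsUnit (T.BT y).det := isUnit_iff_ne_zero.2 (T.BT_det hy)
  have hR : IsUnit T.Rm.det := isUnit_iff_ne_zero.2 T.det_Rm
  have hD : Matrix.diagonal (T.Dp l y) * Matrix.diagonal (fun p => (T.Dp l y p)⁻¹) = 1 := by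
    rw [Matrix.diagonal_mul_diagonal]
    have : (fun p => T.Dp l y p * (T.Dp l y p)⁻¹) = fun _ => (1 : ℂ) := by
      funext p
      exact mul_inv_cancel₀ (T.Dp_ne l hy p)
    rw [this, Matrix.diagonal_one]
  unfold Pf Qf
  rw [T.form l hy, Matrix.mul_smul, Matrix.smul_mul, smul_smul, ← Complex.exp_add]
  have e0 : (T.dim : ℂ) / 2 * Complex.log y + -((T.dim : ℂ) / 2) * Complex.log y = 0 := by ring
  rw [e0, Complex.exp_zero, one_smul]
  calc T.Nn l y = T.Nn l y * (T.Rm⁻¹ * T.Rm) := by rw [Matrix.nonsing_inv_mul _ hR, mul_one]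
    _ = T.Nn l y * (T.Rm⁻¹ * ((Matrix.diagonal (T.Dp l y) *
          Matrix.diagonal (fun p => (T.Dp l y p)⁻¹)) * T.Rm)) := by rw [hD, one_mul]
    _ = T.Nn l y * (T.Rm⁻¹ * ((Matrix.diagonal (T.Dp l y) * ((T.BT y * (T.BT y)⁻¹) *
          Matrix.diagonal (fun p => (T.Dp l y p)⁻¹))) * T.Rm)) := by
        rw [Matrix.mul_nonsing_inv _ hB, one_mul]
    _ = (th T (-l) * th T l) * (T.Nn l y * (T.Rm⁻¹ * ((Matrix.diagonal (T.Dp l y) *
          ((T.BT y * (T.BT y)⁻¹) * Matrix.diagonal (fun p => (T.Dp l y p)⁻¹))) * T.Rm))) := by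
        rw [th_neg_mul, one_mul]
    _ = _ := by simp only [mul_assoc]

private theorem Pf_ode (T : GQ N) {y : ℂ} (hy : y ≠ 0) (l : ℂ) (i j : Fin N) :
    HasDerivAt (fun l => Pf T y l i j) ((-(y • (T.Ah l * Pf T y l))) i j) l := by
  have h1 := th_mul_deriv (T := T) (M := fun l => T.FG l y)
    (M' := fun l => (theta T - (y * Complex.exp (-l)) •
      T.C (Complex.exp l)) * T.FG l y) (l := l)
    (fun i j => T.FG_ode hy l i j) i j
  have e1 : th T (-l) * ((theta T - (y * Complex.exp (-l)) •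
      T.C (Complex.exp l)) * T.FG l y - theta T * T.FG l y) =
      -(y • (T.Ah l * Pf T y l)) := by
    unfold GQ.Ah Pf
    have e2 : (theta T - (y * Complex.exp (-l)) •
      T.C (Complex.exp l)) * T.FG l y - theta T * T.FG l y =
      -(y • ((Complex.exp (-l) • T.C (Complex.exp l)) *
        T.FG l y)) := by
      rw [sub_mul, mul_smul, Matrix.smul_mul]
      abel
    rw [e2, mul_neg, Matrix.mul_smul]
    congr 2
    calc th T (-l) * (Complex.exp (-l) • T.C (Complex.exp l) *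
          T.FG l y) = th T (-l) * (Complex.exp (-l) • T.C           (Complex.exp l)) * ((th T l * th T (-l)) * T.FG l y) := by
          rw [th_mul_neg, one_mul, mul_assoc]
      _ = _ := by simp only [mul_assoc]
  rw [e1] at h1
  exact h1

private theorem Dp_inv_deriv (T : GQ N) {y : ℂ} (hy : y.im ≠ 0) (l : ℂ) (p : Fin N) :
    HasDerivAt (fun l => (T.Dp l y p)⁻¹) (((T.Dp l y p)⁻¹) * ((T.cw p : ℂ) * y)) l := by
  have h1 : HasDerivAt (fun l => -(T.cw p : ℂ) * y * (l - Complex.log y) + T.tt p * y)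
      (-(T.cw p : ℂ) * y) l := by
    have h2 := (((hasDerivAt_id l).sub_const (Complex.log y)).const_mul
      (-(T.cw p : ℂ) * y)).add_const (T.tt p * y)
    simpa using h2
  have h3 : HasDerivAt (fun l => T.Dp l y p) (T.Dp l y p * (-(T.cw p : ℂ) * y)) l := by
    have h4 := h1.cexp.mul_const (∏ k, Complex.Gamma (1 - T.wt p k * y))
    have e1 : Complex.exp (-(T.cw p : ℂ) * y * (l - Complex.log y) + T.tt p * y) *
        (-(T.cw p : ℂ) * y) * ∏ k, Complex.Gamma (1 - T.wt p k * y) =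
        T.Dp l y p * (-(T.cw p : ℂ) * y) := by
      unfold GQ.Dp
      ring
    rw [e1] at h4
    exact h4
  have h5 := h3.inv (T.Dp_ne l hy p)
  have e2 : -(T.Dp l y p * (-(T.cw p : ℂ) * y)) / T.Dp l y p ^ 2 =
      ((T.Dp l y p)⁻¹) * ((T.cw p : ℂ) * y) := by
    have := T.Dp_ne l hy p
    field_simp
  rw [e2] at h5
  exact h5

private theorem hasDerivAt_const_mul_entry {A : ℂ → Matrix (Fin N) (Fin N) ℂ}
    {A' : Matrix (Fin N) (Fin N) ℂ} {x : ℂ} (C : Matrix (Fin N) (Fin N) ℂ)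
    (hA : ∀ i j, HasDerivAt (fun x => A x i j) (A' i j) x) (i j : Fin N) :
    HasDerivAt (fun x => (C * A x) i j) ((C * A') i j) x := by
  have h1 := hasDerivAt_mul_entry (A := fun _ => C) (A' := 0) (B := A) (B' := A') (x := x)
    (fun i j => hasDerivAt_const x (C i j)) hA i j
  rw [zero_mul, zero_add] at h1
  exact h1

private theorem hasDerivAt_mul_const_entry {A : ℂ → Matrix (Fin N) (Fin N) ℂ}
    {A' : Matrix (Fin N) (Fin N) ℂ} {x : ℂ} (C : Matrix (Fin N) (Fin N) ℂ)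
    (hA : ∀ i j, HasDerivAt (fun x => A x i j) (A' i j) x) (i j : Fin N) :
    HasDerivAt (fun x => (A x * C) i j) ((A' * C) i j) x := by
  have h1 := hasDerivAt_mul_entry (A := A) (A' := A') (B := fun _ => C) (B' := 0) (x := x)
    hA (fun i j => hasDerivAt_const x (C i j)) i j
  rw [mul_zero, add_zero] at h1
  exact h1

private theorem Qf_ode (T : GQ N) {y : ℂ} (hy : y.im ≠ 0) (l : ℂ) (i j : Fin N) :
    HasDerivAt (fun l => Qf T y l i j) ((y • (Qf T y l * T.W)) i j) l := by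
  have h1 : ∀ i j, HasDerivAt (fun l => Matrix.diagonal (fun p => (T.Dp l y p)⁻¹) i j)
      ((Matrix.diagonal (fun p => (T.Dp l y p)⁻¹) *
        Matrix.diagonal (fun p => (T.cw p : ℂ) * y)) i j) l := by
    intro i j
    rw [Matrix.diagonal_mul_diagonal]
    by_cases hij : i = j
    · subst hij
      simp only [Matrix.diagonal_apply_eq]
      exact Dp_inv_deriv T hy l i
    · simp only [Matrix.diagonal_apply_ne _ hij]
      exact hasDerivAt_const l 0
  have h2 := hasDerivAt_const_mul_entry ((T.BT y)⁻¹)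
    (hasDerivAt_mul_const_entry T.Rm h1) i j
  have e1 : (T.BT y)⁻¹ * (Matrix.diagonal (fun p => (T.Dp l y p)⁻¹) *
      Matrix.diagonal (fun p => (T.cw p : ℂ) * y) * T.Rm) = y • (Qf T y l * T.W) := by
    unfold Qf
    have e2 : Matrix.diagonal (fun p => (T.cw p : ℂ) * y) = y • Matrix.diagonal (fun p => (T.cw p : ℂ)) := by
      ext a b
      by_cases hab : a = b
      · subst hab
        rw [Matrix.smul_apply, Matrix.diagonal_apply_eq, Matrix.diagonal_apply_eq, smul_eq_mul,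
          mul_comm]
      · rw [Matrix.smul_apply, Matrix.diagonal_apply_ne _ hab, Matrix.diagonal_apply_ne _ hab,
          smul_zero]
    rw [e2, Matrix.mul_smul, Matrix.smul_mul, Matrix.mul_smul, mul_assoc, ← T.Rm_W]
    simp only [mul_assoc]
  rw [e1] at h2
  exact h2

theorem GQ.Nn_ode (T : GQ N) {y : ℂ} (hy : y.im ≠ 0) (l : ℂ) (i j : Fin N) :
    HasDerivAt (fun l => T.Nn l y i j) ((y • (T.Nn l y * T.W - T.Ah l * T.Nn l y)) i j) l := by
  have hy0 : y ≠ 0 := by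
    rintro rfl
    exact hy Complex.zero_im
  have h1 := (hasDerivAt_mul_entry (Pf_ode T hy0 l) (Qf_ode T hy l) i j).const_mul
    (Complex.exp ((T.dim : ℂ) / 2 * Complex.log y))
  have e1 : (fun l => T.Nn l y i j) = fun l => Complex.exp ((T.dim : ℂ) / 2 * Complex.log y) *
      (Pf T y l * Qf T y l) i j := by
    funext l
    rw [Nn_eq T hy l, Matrix.smul_apply, smul_eq_mul]
  have e2 : (y • (T.Nn l y * T.W - T.Ah l * T.Nn l y)) i j =
      Complex.exp ((T.dim : ℂ) / 2 * Complex.log y) *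
      (-(y • (T.Ah l * Pf T y l)) * Qf T y l + Pf T y l * (y • (Qf T y l * T.W))) i j := by
    have e3 : ∀ (c : ℂ) (M : Matrix (Fin N) (Fin N) ℂ), c * M i j = (c • M) i j :=
      fun _ _ => rfl
    rw [e3, Nn_eq T hy l]
    have : ∀ (c : ℂ) (A P Q W : Matrix (Fin N) (Fin N) ℂ),
        y • ((c • (P * Q)) * W - A * (c • (P * Q))) =
        c • (-(y • (A * P)) * Q + P * (y • (Q * W))) := by
      intro c A P Q W
      simp only [Matrix.smul_mul, Matrix.mul_smul, smul_add, smul_sub, neg_mul, smul_neg, mul_assoc]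
      rw [smul_comm y c, smul_comm y c]
      abel
    rw [this]
  rw [e1, e2]
  exact h1

theorem GQ.Ni_ode (T : GQ N) {y : ℂ} (hy : y.im ≠ 0) (l : ℂ) (i j : Fin N) :
    HasDerivAt (fun l => (T.Nn l y)⁻¹ i j)
      ((y • ((T.Nn l y)⁻¹ * T.Ah l - T.W * (T.Nn l y)⁻¹)) i j) l := by
  have hdet : ∀ l, IsUnit (T.Nn l y).det := fun l => isUnit_iff_ne_zero.2 (T.Nn_det l hy)
  have hd : ∀ i j, HasDerivAt (fun l => (T.Nn l y)⁻¹ i j)
      (Matrix.of (fun i j => deriv (fun l => (T.Nn l y)⁻¹ i j) l) i j) l := by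
    intro i j
    rw [Matrix.of_apply]
    exact (diffAt_inv (A := fun l => T.Nn l y) (fun i j => (T.Nn_ode hy l i j).differentiableAt)
      (T.Nn_det l hy) i j).hasDerivAt
  set D : Matrix (Fin N) (Fin N) ℂ := Matrix.of (fun i j => deriv (fun l => (T.Nn l y)⁻¹ i j) l)
    with hD
  have h1 : ∀ i j, HasDerivAt (fun l => (T.Nn l y * (T.Nn l y)⁻¹) i j)
      (((y • (T.Nn l y * T.W - T.Ah l * T.Nn l y)) * (T.Nn l y)⁻¹ + T.Nn l y * D) i j) l :=
    hasDerivAt_mul_entry (fun i j => T.Nn_ode hy l i j) hd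
  have h2 : (y • (T.Nn l y * T.W - T.Ah l * T.Nn l y)) * (T.Nn l y)⁻¹ + T.Nn l y * D = 0 := by
    ext i j
    have h3 := h1 i j
    have h4 : (fun l => (T.Nn l y * (T.Nn l y)⁻¹) i j) = fun _ => (1 : Matrix (Fin N) (Fin N) ℂ) i j := by
      funext l
      rw [Matrix.mul_nonsing_inv _ (hdet l)]
    rw [h4] at h3
    rw [h3.unique (hasDerivAt_const l _)]
    rfl
  have h3 : D = y • ((T.Nn l y)⁻¹ * T.Ah l - T.W * (T.Nn l y)⁻¹) := by
    have h4 : T.Nn l y * D = -((y • (T.Nn l y * T.W - T.Ah l * T.Nn l y)) * (T.Nn l y)⁻¹) :=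
      eq_neg_of_add_eq_zero_right h2
    have h5 : D = (T.Nn l y)⁻¹ * (T.Nn l y * D) := by
      rw [← mul_assoc, Matrix.nonsing_inv_mul _ (hdet l), one_mul]
    rw [h5, h4]
    rw [Matrix.smul_mul, sub_mul, mul_assoc (T.Ah l), Matrix.mul_nonsing_inv _ (hdet l), mul_one,
      mul_neg, Matrix.mul_smul, mul_sub, mul_assoc (T.Nn l y), ← mul_assoc ((T.Nn l y)⁻¹),
      Matrix.nonsing_inv_mul _ (hdet l), one_mul, ← smul_neg]
    congr 1
    abel
  have h6 := hd i j
  rw [h3] at h6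
  exact h6

end Pool.Agent.FLG.Dl
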