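import Pool.Agent.FLG.D.DPrH

/-!
# FLG-D-DPairA: the pairing of the `Γ`-solutions does not depend on `w`

PLAN. `evZ_diff`: induction on Laurent polynomials (`LaurentPolynomial.induction_on'`), with
`evZ y (C a * T n) = a * exp(2πiy)^n` (`LaurentPolynomial.eval₂_C_mul_T`, `qu`), `exp(2πiy)^n = exp(2πi n y)`.
`pair_const`: put `P w = (J (-y) (w + πi))ᵀ * g(y e^w) * J y w`, `g = evm T.pairT`. By `J_ode` at
`(-y, w + πi)` (`exp(-(w+πi)) = -exp(-w)`, `(-y) exp(w+πi) = y exp w`) the derivative of
`w ↦ J (-y) (w + πi)` is `(θ + e^{-w} C) J(-y)`, `C = evm chernT (y e^w)`; derivative of `g`: `pair_deriv`;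
`P' = J(-y)ᵀ [(θ + e^{-w} Cᵀ) g - θ g - g θ + g (θ - e^{-w} C)] J(y) = 0` by `C_self` (`θᵀ = θ`).
A reusable lemma first: `hasDerivAt_mul_entry`: if the entries of `A`, `B` have derivatives the entries
of `A' B + A B'` then so has `A * B` (`HasDerivAt.sum`, `HasDerivAt.mul`, `Matrix.mul_apply`).
A function ℂ → ℂ with derivative `0` everywhere is constant: `is_const_of_deriv_eq_zero`.
-/

open scoped BigOperators Topology
open Filter

namespace Pool.Agent.FLG.Dl

open Pool.Agent.DST Pool.Agent.FLG

variable {N : ℕ} {T : GQ N}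

theorem hasDerivAt_mul_entry {A B : ℂ → Matrix (Fin N) (Fin N) ℂ}
    {A' B' : Matrix (Fin N) (Fin N) ℂ} {x : ℂ}
    (hA : ∀ i j, HasDerivAt (fun x => A x i j) (A' i j) x)
    (hB : ∀ i j, HasDerivAt (fun x => B x i j) (B' i j) x) (i j : Fin N) :
    HasDerivAt (fun x => (A x * B x) i j) ((A' * B x + A x * B') i j) x := by
  have h1 : HasDerivAt (fun x => ∑ a, A x i a * B x a j)
      (∑ a, (A' i a * B x a j + A x i a * B' a j)) x :=
    HasDerivAt.fun_sum fun a _ => (hA i a).mul (hB a j)
  have h2 : (A' * B x + A x * B') i j = ∑ a, (A' i a * B x a j + A x i a * B' a j) := by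
    rw [Matrix.add_apply, Matrix.mul_apply, Matrix.mul_apply, ← Finset.sum_add_distrib]
  rw [h2]
  exact h1

theorem evZ_diff (f : LaurentPolynomial ℤ) : Differentiable ℂ fun y => evZ y f := by
  refine f.induction_on' (fun p q hp hq => ?_) (fun n a => ?_)
  · simp only [map_add]
    exact hp.add hq
  · have h1 : (fun y : ℂ => evZ y (LaurentPolynomial.C a * LaurentPolynomial.T n)) =
        fun y => (a : ℂ) * Complex.exp (n * (2 * Real.pi * Complex.I * y)) := by
      funext y
      unfold evZ
      rw [LaurentPolynomial.eval₂_C_mul_T, Units.val_zpow_eq_zpow_val, Complex.exp_int_mul]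
      rfl
    rw [h1]
    fun_prop

private theorem theta_trans : (theta T).transpose = theta T := by
  unfold theta
  exact Matrix.diagonal_transpose _

theorem GQ.pair_const (T : GQ N) (y w w' : ℂ) :
    (T.J (-y) (w + Real.pi * Complex.I)).transpose * T.g (y * Complex.exp w) * T.J y w =
    (T.J (-y) (w' + Real.pi * Complex.I)).transpose * T.g (y * Complex.exp w') *
      T.J y w' := by
  have key : ∀ (w : ℂ) (i j : Fin N), HasDerivAt (fun w =>
      ((T.J (-y) (w + Real.pi * Complex.I)).transpose * T.g (y * Complex.exp w) *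
        T.J y w) i j) 0 w := by
    intro w i j
    have hA : ∀ i j, HasDerivAt (fun w => (T.J (-y) (w + Real.pi * Complex.I)).transpose i j)
        (((T.J (-y) (w + Real.pi * Complex.I)).transpose * (theta T + Complex.exp (-w) •
          (T.C (y * Complex.exp w)).transpose)) i j) w := by
      intro i j
      have h1 := T.ode (-y) (w + Real.pi * Complex.I) j i
      have h2 : HasDerivAt (fun w : ℂ => w + Real.pi * Complex.I) 1 w :=
        (hasDerivAt_id w).add_const _
      have h3 := HasDerivAt.comp w h1 h2
      rw [mul_one] at h3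
      have e1 : Complex.exp (-(w + Real.pi * Complex.I)) = -Complex.exp (-w) := by
        rw [neg_add, Complex.exp_add, Complex.exp_neg (Real.pi * Complex.I), Complex.exp_pi_mul_I]
        norm_num
      have e2 : -y * Complex.exp (w + Real.pi * Complex.I) = y * Complex.exp w := by
        rw [Complex.exp_add, Complex.exp_pi_mul_I]
        ring
      rw [e1, e2] at h3
      have e3 : ((T.J (-y) (w + Real.pi * Complex.I)).transpose * (theta T + Complex.exp (-w) •
          (T.C (y * Complex.exp w)).transpose)) i j =
          ((theta T - -Complex.exp (-w) •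
            T.C (y * Complex.exp w)) *
            T.J (-y) (w + Real.pi * Complex.I)) j i := by
        have e4 : (T.J (-y) (w + Real.pi * Complex.I)).transpose * (theta T + Complex.exp (-w) •
          (T.C (y * Complex.exp w)).transpose) =
          ((theta T - -Complex.exp (-w) •
            T.C (y * Complex.exp w)) *
            T.J (-y) (w + Real.pi * Complex.I)).transpose := by
          rw [Matrix.transpose_mul, Matrix.transpose_sub, Matrix.transpose_smul, theta_trans,
            neg_smul, sub_neg_eq_add]
        rw [e4, Matrix.transpose_apply]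
      rw [e3]
      exact h3
    have hg := fun i j => T.pair_deriv y w i j
    have hB := fun i j => T.ode y w i j
    have h1 := hasDerivAt_mul_entry hA hg
    have h2 := hasDerivAt_mul_entry h1 hB i j
    have hC := T.C_self (y * Complex.exp w)
    have h3 : ∀ (A θ C g J : Matrix (Fin N) (Fin N) ℂ) (e : ℂ), g * C = C.transpose * g →
        (A * (θ + e • C.transpose) * g + A * (-(θ * g + g * θ))) * J +
          A * g * ((θ - e • C) * J) = 0 := by
      intro A θ C g J e h
      have h4 : A * g * ((θ - e • C) * J) = A * (g * θ - e • (C.transpose * g)) * J := by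
        rw [← h]
        simp only [Matrix.mul_sub, Matrix.sub_mul, Matrix.mul_smul, Matrix.smul_mul,
          Matrix.mul_assoc]
      rw [h4]
      simp only [Matrix.mul_sub, Matrix.sub_mul, Matrix.mul_add, Matrix.add_mul, Matrix.mul_smul,
        Matrix.smul_mul, Matrix.mul_assoc, Matrix.mul_neg, Matrix.neg_mul]
      abel
    rw [h3 _ _ _ _ _ _ hC] at h2
    exact h2
  refine Matrix.ext fun i j => ?_
  exact is_const_of_deriv_eq_zero (fun w => (key w i j).differentiableAt)
    (fun w => (key w i j).deriv) w w'

end Pool.Agent.FLG.Dl
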