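import Pool.Agent.FLG.D.DForm
import Pool.Agent.FLG.D.DPairA
import Pool.Agent.DST.DGamP

/-!
# FLG-D-DPairC: the pairing of the `Γ`-solutions on the imaginary axis

PLAN. `y = iT`, `T ≠ 0` real. By `pair_const` it is enough to compute the limit of
`P w = (J (-y) (w + πi))ᵀ * g(y e^w) * J y w` along real `w → +∞` (`P w` is constant).
(1) By `J_gamma` at `(y, w)` and `(-y, w + πi)` (`exp(w+πi) = -exp w`), `exp_theta`, and
    `(th w)ᵀ * g(y e^w) * th w = g(y)` (`th` is diagonal; entries: `pair_eval'` at `y e^w` and at `y`, or a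
    direct computation) and `th (w + πi) = th w * th (πi)`:
    `P w = (cal(-y,-e^w) E₋ )ᵀ th(πi) g(y) (cal(y,e^w) E₊)`, with
    `E₊ = exp(-w W(y)) G(y) = Ry(y)⁻¹ diag(e^{-w cw y}) (Ry G)(y)`,
    `E₋ = exp(-(w+πi) W(-y)) G(-y) = Ry(-y)⁻¹ diag(e^{(w+πi) cw y}) (Ry G)(-y)` (`exp_W`, `det_Ry`).
(2) For `y = iT` and real `w` the entries of `E₊`, `E₋` are bounded (the diagonal entries have modulus
    independent of `w`), and `cal(±y, ±e^w) → 1` (`T.cal_lim`, `|e^w| → ∞`). Hence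
    `P w - E₋ᵀ th(πi) g(y) E₊ → 0`. And `E₋ᵀ th(πi) g(y) E₊` does not depend on `w` by (3).
(3) `Ry(-y) = Ry(y) diag((-1)^{e_a})`, `th(πi) = i^d diag((-1)^{e_a})` (`exp(πi(d/2 - e_a))`),
    `g(y) * y^d = Ry(y)ᵀ diag(1/∏wt) Ry(y)` (`pair_one`, `pair_eval'`, `Ry_eq`), so
    `Ry(-y)⁻ᵀ th(πi) g(y) Ry(y)⁻¹ = i^d y^{-d} diag(1/∏_k wt p k)` is diagonal and the factors
    `e^{(w+πi) cw y} e^{-w cw y} = e^{πi cw y}` are independent of `w`. With `Ry_G`
    `P i j = i^d y^{-d} ∑_p evZ(-y)(B i p) evZ y (B j p) ∏_k [Γ(1+w_k y) Γ(1-w_k y) e^{πi w_k y} / w_k]`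
    (`exp(tt(-y)) exp(tt y) = 1`, `cw = ∑_k w_k`, `BT y p j = evZ y (B j p)`).
(4) By `gam_prod` (DST-DGamP) with `u = w_k y` each factor is `2πi y / (1 - e^{-2πi w_k y})`; there are
    `d` factors and `i^d (2πi)^d = (-2π)^d`. Conclude with `T.χ_loc`.
-/

open scoped BigOperators Topology
open Filter

namespace Pool.Agent.FLG.Dl

open Pool.Agent.DST Pool.Agent.FLG

variable {N : ℕ} {T : GQ N}

/-- the constant part of the solutions. -/
private noncomputable def pcC (T : GQ N) (y : ℂ) : Matrix (Fin N) (Fin N) ℂ :=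
  Matrix.diagonal (fun p => Complex.exp (T.tt p * y) *
    ∏ k, Complex.Gamma (1 - T.wt p k * y)) * T.BT y

/-- the bounded part of the solutions. -/
private noncomputable def pcE (T : GQ N) (y c : ℂ) : Matrix (Fin N) (Fin N) ℂ :=
  NormedSpace.exp (c • T.Cg 0 y) * T.G y

private theorem pc_ne {y : ℂ} (hy : y.im ≠ 0) : y ≠ 0 := by
  rintro rfl
  simp at hy

private theorem pc_Ry (T : GQ N) {y : ℂ} (hy : y.im ≠ 0) (c : ℂ) :
    T.Ry y * pcE T y c =
      Matrix.diagonal (fun p => Complex.exp (c * ((T.cw p : ℂ) * y))) * pcC T y := by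
  rw [pcE, ← Matrix.mul_assoc, T.exp_W (pc_ne hy) c, Matrix.mul_assoc, T.Ry_G hy]
  rfl

private theorem pc_J (T : GQ N) {y : ℂ} (hy : y.im ≠ 0) (w : ℂ) :
    T.J y w = th T w * T.cal y (Complex.exp w) * pcE T y (-w) := by
  rw [T.gamma y hy w, exp_theta, pcE, Matrix.mul_assoc]

private theorem pc_trans (l : ℂ) : (th T l).transpose = th T l := Matrix.diagonal_transpose _

private theorem pc_hom (T : GQ N) {y : ℂ} (hy : y ≠ 0) (w : ℂ) :
    th T w * T.g (y * Complex.exp w) * th T w = T.g y := by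
  ext a b
  have h1 := T.pair_eval (Complex.log y + w) a b
  have h2 := T.pair_eval (Complex.log y) a b
  rw [Complex.exp_add, Complex.exp_log hy] at h1
  rw [Complex.exp_log hy] at h2
  rw [th, Matrix.mul_diagonal, Matrix.diagonal_mul, h1, h2]
  have h3 : Complex.exp (w * ((T.dim : ℂ) / 2 - T.deg a)) *
      Complex.exp ((Complex.log y + w) * ((T.deg a : ℂ) + T.deg b - T.dim)) *
      Complex.exp (w * ((T.dim : ℂ) / 2 - T.deg b)) =
      Complex.exp (Complex.log y * ((T.deg a : ℂ) + T.deg b - T.dim)) := by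
    rw [← Complex.exp_add, ← Complex.exp_add]
    congr 1
    ring
  rw [← h3]
  ring

private theorem pc_P (T : GQ N) {y : ℂ} (hy : y.im ≠ 0) (w : ℂ) :
    (T.J (-y) (w + Real.pi * Complex.I)).transpose * T.g (y * Complex.exp w) * T.J y w =
      (pcE T (-y) (-(w + Real.pi * Complex.I))).transpose *
        ((T.cal (-y) (Complex.exp (w + Real.pi * Complex.I))).transpose *
          (th T (Real.pi * Complex.I) * T.g y) * T.cal y (Complex.exp w)) *
        pcE T y (-w) := by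
  have hy' : (-y).im ≠ 0 := by simpa using hy
  rw [pc_J T hy' (w + Real.pi * Complex.I), pc_J T hy w, Matrix.transpose_mul, Matrix.transpose_mul,
    pc_trans, ← pc_hom T (pc_ne hy) w, add_comm w (Real.pi * Complex.I), th_add]
  simp only [Matrix.mul_assoc]

private theorem pc_entry (M K : Matrix (Fin N) (Fin N) ℂ) (D : Fin N → ℂ) (i j : Fin N) :
    (M.transpose * Matrix.diagonal D * K) i j = ∑ p, M p i * D p * K p j := by
  rw [Matrix.mul_apply]
  refine Finset.sum_congr rfl fun p _ => ?_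
  rw [Matrix.mul_diagonal, Matrix.transpose_apply]

private theorem pc_K (T : GQ N) {y : ℂ} (hy : y ≠ 0) :
    th T (Real.pi * Complex.I) * T.g y = (Complex.I / y) ^ T.dim •
      ((T.Ry (-y)).transpose * Matrix.diagonal (fun p => 1 / ∏ k, (T.wt p k : ℂ)) * T.Ry y) := by
  ext a b
  have h1 := T.pair_eval' hy a b
  have h2 : T.g 1 a b = ∑ p, T.res p a * (1 / ∏ k, (T.wt p k : ℂ)) * T.res p b := by
    rw [T.pair_one, pc_entry]
    rfl
  rw [th, Matrix.diagonal_mul, Matrix.smul_apply, pc_entry, smul_eq_mul]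
  have h3 : ∑ p, T.Ry (-y) p a * (1 / ∏ k, (T.wt p k : ℂ)) * T.Ry y p b =
      (-1) ^ T.deg a * (T.g y a b * y ^ T.dim) := by
    rw [h1, h2, Finset.mul_sum, Finset.mul_sum]
    refine Finset.sum_congr rfl fun p _ => ?_
    rw [GQ.Ry, GQ.Ry, Matrix.of_apply, Matrix.of_apply, neg_pow y]
    ring
  have h4 : Complex.exp (Real.pi * Complex.I * ((T.dim : ℂ) / 2 - T.deg a)) =
      Complex.I ^ T.dim * (-1) ^ T.deg a := by
    have h5 : Real.pi * Complex.I * ((T.dim : ℂ) / 2 - T.deg a) =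
        (T.dim : ℂ) * (Real.pi / 2 * Complex.I) - (T.deg a : ℂ) * (Real.pi * Complex.I) := by
      ring
    rw [h5, Complex.exp_sub, Complex.exp_nat_mul, Complex.exp_nat_mul, Complex.exp_pi_mul_I,
      Complex.exp_pi_div_two_mul_I]
    rw [div_eq_iff (pow_ne_zero _ (by norm_num)), mul_assoc, ← mul_pow]
    norm_num
  rw [h3, h4, div_pow]
  have h6 : y ^ T.dim ≠ 0 := pow_ne_zero _ hy
  field_simp

private theorem pc_gam (T : GQ N) {y : ℂ} (hy : y.im ≠ 0) (p : Fin N) :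
    (Complex.I / y) ^ T.dim * (Complex.exp (Real.pi * Complex.I * ((T.cw p : ℂ) * y)) *
      (∏ k, Complex.Gamma (1 - T.wt p k * -y)) * (∏ k, Complex.Gamma (1 - T.wt p k * y))) =
    (-(2 * Real.pi)) ^ T.dim * (∏ k, (T.wt p k : ℂ)) /
      ∏ k, (1 - Complex.exp (-(2 * Real.pi * Complex.I * y * T.wt p k))) := by
  have h1 : ∀ k, Complex.Gamma (1 - T.wt p k * -y) * Complex.Gamma (1 - T.wt p k * y) *
      Complex.exp (Real.pi * Complex.I * (T.wt p k * y)) =
      2 * Real.pi * Complex.I * y * (T.wt p k : ℂ) /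
        (1 - Complex.exp (-(2 * Real.pi * Complex.I * y * T.wt p k))) := by
    intro k
    have h2 : ((T.wt p k : ℂ) * y).im ≠ 0 := by
      have h3 : (T.wt p k : ℝ) ≠ 0 := by exact_mod_cast T.wt_ne p k
      simp only [Complex.mul_im, Complex.intCast_re, Complex.intCast_im, zero_mul, add_zero]
      exact mul_ne_zero h3 hy
    have h4 := gam_prod h2
    rw [show (1 : ℂ) - T.wt p k * -y = 1 + T.wt p k * y by ring, h4]
    congr 1
    · ring
    · congr 3
      ring
  have h5 : Complex.exp (Real.pi * Complex.I * ((T.cw p : ℂ) * y)) =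
      ∏ k, Complex.exp (Real.pi * Complex.I * (T.wt p k * y)) := by
    rw [← Complex.exp_sum]
    congr 1
    rw [← Finset.mul_sum, ← Finset.sum_mul, GQ.cw]
    push_cast
    rfl
  have h6 : Complex.exp (Real.pi * Complex.I * ((T.cw p : ℂ) * y)) *
      (∏ k, Complex.Gamma (1 - T.wt p k * -y)) * (∏ k, Complex.Gamma (1 - T.wt p k * y)) =
      ∏ k, (2 * Real.pi * Complex.I * y * (T.wt p k : ℂ) /
        (1 - Complex.exp (-(2 * Real.pi * Complex.I * y * T.wt p k)))) := by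
    rw [h5, ← Finset.prod_mul_distrib, ← Finset.prod_mul_distrib]
    refine Finset.prod_congr rfl fun k _ => ?_
    rw [← h1 k]
    ring
  rw [h6, Finset.prod_div_distrib, Finset.prod_mul_distrib, Finset.prod_const, Finset.card_univ,
    Fintype.card_fin, ← mul_div_assoc, ← mul_assoc, ← mul_pow]
  have h7 : Complex.I / y * (2 * Real.pi * Complex.I * y) = -(2 * Real.pi) := by
    have := pc_ne hy
    field_simp
    rw [Complex.I_sq]
  rw [h7]

private theorem pc_Q (T : GQ N) {y : ℂ} (hy : y.im ≠ 0) (w : ℂ) :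
    (pcE T (-y) (-(w + Real.pi * Complex.I))).transpose *
      (th T (Real.pi * Complex.I) * T.g y) * pcE T y (-w) =
      ((-(2 * Real.pi)) ^ T.dim : ℂ) • T.χ.map (evZ y) := by
  have hy' : (-y).im ≠ 0 := by simpa using hy
  have h1 : (pcE T (-y) (-(w + Real.pi * Complex.I))).transpose *
      (th T (Real.pi * Complex.I) * T.g y) * pcE T y (-w) = (Complex.I / y) ^ T.dim •
      ((T.Ry (-y) * pcE T (-y) (-(w + Real.pi * Complex.I))).transpose *
        Matrix.diagonal (fun p => 1 / ∏ k, (T.wt p k : ℂ)) * (T.Ry y * pcE T y (-w))) := by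
    rw [pc_K T (pc_ne hy), Matrix.transpose_mul, Matrix.mul_smul, Matrix.smul_mul]
    simp only [Matrix.mul_assoc]
  rw [h1, pc_Ry T hy', pc_Ry T hy]
  ext i j
  rw [Matrix.smul_apply, Matrix.smul_apply, pc_entry, Matrix.map_apply, T.χ_loc y hy i j,
    smul_eq_mul, smul_eq_mul, Finset.mul_sum, Finset.mul_sum]
  refine Finset.sum_congr rfl fun p _ => ?_
  have h2 := pc_gam T hy p
  have hW : ∏ k, (T.wt p k : ℂ) ≠ 0 :=
    Finset.prod_ne_zero_iff.2 fun k _ => by exact_mod_cast T.wt_ne p k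
  have h3 : Complex.exp (-(w + Real.pi * Complex.I) * ((T.cw p : ℂ) * -y)) *
      Complex.exp (-w * ((T.cw p : ℂ) * y)) =
      Complex.exp (Real.pi * Complex.I * ((T.cw p : ℂ) * y)) := by
    rw [← Complex.exp_add]
    congr 1
    ring
  have h4 : Complex.exp (T.tt p * -y) * Complex.exp (T.tt p * y) = 1 := by
    rw [← Complex.exp_add, ← Complex.exp_zero]
    congr 1
    ring
  rw [pcC, pcC, Matrix.diagonal_mul, Matrix.diagonal_mul, Matrix.diagonal_mul, Matrix.diagonal_mul,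
    GQ.BT, GQ.BT, Matrix.transpose_apply, Matrix.transpose_apply, Matrix.map_apply,
    Matrix.map_apply]
  calc (Complex.I / y) ^ T.dim *
      (Complex.exp (-(w + Real.pi * Complex.I) * ((T.cw p : ℂ) * -y)) *
        ((Complex.exp (T.tt p * -y) * ∏ k, Complex.Gamma (1 - T.wt p k * -y)) *
          evZ (-y) (T.B i p)) * (1 / ∏ k, (T.wt p k : ℂ)) *
        (Complex.exp (-w * ((T.cw p : ℂ) * y)) *
          ((Complex.exp (T.tt p * y) * ∏ k, Complex.Gamma (1 - T.wt p k * y)) *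
          evZ y (T.B j p)))) =
      (Complex.I / y) ^ T.dim * ((Complex.exp (-(w + Real.pi * Complex.I) * ((T.cw p : ℂ) * -y)) *
      Complex.exp (-w * ((T.cw p : ℂ) * y))) *
      (∏ k, Complex.Gamma (1 - T.wt p k * -y)) * (∏ k, Complex.Gamma (1 - T.wt p k * y))) *
      (Complex.exp (T.tt p * -y) * Complex.exp (T.tt p * y)) * (1 / ∏ k, (T.wt p k : ℂ)) *
      (evZ (-y) (T.B i p) * evZ y (T.B j p)) := by ring
    _ = (-(2 * Real.pi)) ^ T.dim * (evZ (-y) (T.B i p) * evZ y (T.B j p) /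
      ∏ k, (1 - Complex.exp (-(2 * Real.pi * Complex.I * y * T.wt p k)))) := by
      rw [h3, h4, h2]
      field_simp

private theorem pc_bdd (T : GQ N) {y : ℂ} (hy : y.im ≠ 0) (c : ℝ → ℂ) (K : Fin N → ℝ)
    (hK : ∀ x p, ‖Complex.exp (c x * ((T.cw p : ℂ) * y))‖ ≤ K p) (a j : Fin N) :
    ∃ C : ℝ, 0 ≤ C ∧ ∀ x, ‖pcE T y (c x) a j‖ ≤ C := by
  have hdet : IsUnit (T.Ry y).det := isUnit_iff_ne_zero.2 (T.det_Ry (pc_ne hy))
  have h1 : ∀ x, pcE T y (c x) a j =
      ∑ p, (T.Ry y)⁻¹ a p * (Complex.exp (c x * ((T.cw p : ℂ) * y)) * pcC T y p j) := by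
    intro x
    have h2 : pcE T y (c x) = (T.Ry y)⁻¹ *
        (Matrix.diagonal (fun p => Complex.exp (c x * ((T.cw p : ℂ) * y))) * pcC T y) := by
      rw [← pc_Ry T hy, ← Matrix.mul_assoc, Matrix.nonsing_inv_mul _ hdet, Matrix.one_mul]
    rw [h2, Matrix.mul_apply]
    refine Finset.sum_congr rfl fun p _ => ?_
    rw [Matrix.diagonal_mul]
  have hK0 : ∀ p, 0 ≤ K p := fun p => (norm_nonneg _).trans (hK 0 p)
  refine ⟨∑ p, ‖(T.Ry y)⁻¹ a p‖ * (K p * ‖pcC T y p j‖), Finset.sum_nonneg fun p _ =>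
    mul_nonneg (norm_nonneg _) (mul_nonneg (hK0 p) (norm_nonneg _)), fun x => ?_⟩
  rw [h1 x]
  refine (norm_sum_le _ _).trans (Finset.sum_le_sum fun p _ => ?_)
  rw [norm_mul, norm_mul]
  exact mul_le_mul_of_nonneg_left (mul_le_mul_of_nonneg_right (hK x p) (norm_nonneg _))
    (norm_nonneg _)

private theorem pc_exp (x : ℝ) : ‖Complex.exp (x + Real.pi * Complex.I)‖ = Real.exp x := by
  rw [Complex.norm_exp]
  simp

private theorem pc_lim (T : GQ N) {y : ℂ} (hy : y.im ≠ 0) (a b : Fin N) :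
    Tendsto (fun x : ℝ => ((T.cal (-y) (Complex.exp (x + Real.pi * Complex.I))).transpose *
          (th T (Real.pi * Complex.I) * T.g y) * T.cal y (Complex.exp x) -
          th T (Real.pi * Complex.I) * T.g y) a b) atTop (𝓝 0) := by
  have hy' : (-y).im ≠ 0 := by simpa using hy
  have h1 : Tendsto (fun x : ℝ => Complex.exp (x + Real.pi * Complex.I)) atTop
      (Bornology.cobounded ℂ) := by
    rw [← tendsto_norm_atTop_iff_cobounded]
    simp only [pc_exp]
    exact Real.tendsto_exp_atTop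
  have h2 : Tendsto (fun x : ℝ => Complex.exp (x : ℂ)) atTop (Bornology.cobounded ℂ) := by
    rw [← tendsto_norm_atTop_iff_cobounded]
    have h3 : ∀ x : ℝ, ‖Complex.exp (x : ℂ)‖ = Real.exp x := fun x => by
      rw [Complex.norm_exp]
      simp
    simp only [h3]
    exact Real.tendsto_exp_atTop
  set K := th T (Real.pi * Complex.I) * T.g y with hKdef
  have h4 : ∀ i j, Tendsto (fun x : ℝ => T.cal (-y) (Complex.exp (x + Real.pi * Complex.I)) i j)
      atTop (𝓝 ((1 : Matrix (Fin N) (Fin N) ℂ) i j)) := fun i j => (T.cal_lim (-y) hy' i j).comp h1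
  have h5 : ∀ i j, Tendsto (fun x : ℝ => T.cal y (Complex.exp x) i j)
      atTop (𝓝 ((1 : Matrix (Fin N) (Fin N) ℂ) i j)) := fun i j => (T.cal_lim y hy i j).comp h2
  have h6 : Tendsto (fun x : ℝ => ∑ c, (∑ e, T.cal (-y) (Complex.exp (x + Real.pi * Complex.I)) e a *
      K e c) * T.cal y (Complex.exp x) c b) atTop
      (𝓝 (∑ c, (∑ e, (1 : Matrix (Fin N) (Fin N) ℂ) e a * K e c) *
        (1 : Matrix (Fin N) (Fin N) ℂ) c b)) :=
    tendsto_finsetSum _ fun c _ => (tendsto_finsetSum _ fun e _ =>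
      (h4 e a).mul tendsto_const_nhds).mul (h5 c b)
  have h7 : ∑ c, (∑ e, (1 : Matrix (Fin N) (Fin N) ℂ) e a * K e c) *
        (1 : Matrix (Fin N) (Fin N) ℂ) c b = K a b := by
    have h8 : ((1 : Matrix (Fin N) (Fin N) ℂ).transpose * K * (1 : Matrix (Fin N) (Fin N) ℂ)) a b =
        K a b := by
      rw [Matrix.transpose_one, Matrix.one_mul, Matrix.mul_one]
    rw [← h8, Matrix.mul_apply]
    refine Finset.sum_congr rfl fun c _ => ?_
    rw [Matrix.mul_apply]
    rfl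
  rw [h7] at h6
  have h9 := h6.sub_const (K a b)
  rw [sub_self] at h9
  refine h9.congr fun x => ?_
  rw [Matrix.sub_apply, Matrix.mul_apply]
  congr 1

theorem GQ.pair_imag (T : GQ N) {τ : ℝ} (hτ : τ ≠ 0) (w : ℂ) :
    (T.J (-(τ * Complex.I)) (w + Real.pi * Complex.I)).transpose *
      T.g (τ * Complex.I * Complex.exp w) * T.J (τ * Complex.I) w =
      ((-(2 * Real.pi)) ^ T.dim : ℂ) • T.χ.map (evZ (τ * Complex.I)) := by
  have hy : ((τ : ℂ) * Complex.I).im ≠ 0 := by simpa using hτ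
  have hy' : (-((τ : ℂ) * Complex.I)).im ≠ 0 := by simpa using hτ
  set y : ℂ := (τ : ℂ) * Complex.I with hydef
  -- bounds
  have hb1 : ∀ a j, ∃ C : ℝ, 0 ≤ C ∧ ∀ x : ℝ, ‖pcE T y (-(x : ℂ)) a j‖ ≤ C := by
    refine pc_bdd T hy (fun x => -(x : ℂ)) (fun _ => 1) fun x p => ?_
    rw [Complex.norm_exp, hydef]
    refine le_of_eq ?_
    rw [Real.exp_eq_one_iff]
    simp
  have hb2 : ∀ a j, ∃ C : ℝ, 0 ≤ C ∧ ∀ x : ℝ,
      ‖pcE T (-y) (-((x : ℂ) + Real.pi * Complex.I)) a j‖ ≤ C := by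
    refine pc_bdd T hy' (fun x => -((x : ℂ) + Real.pi * Complex.I))
      (fun p => Real.exp (-(Real.pi * (T.cw p * τ)))) fun x p => ?_
    rw [Complex.norm_exp, hydef]
    refine le_of_eq ?_
    congr 1
    simp
  ext i j
  have hP : ∀ x : ℝ, ((T.J (-y) (w + Real.pi * Complex.I)).transpose *
      T.g (y * Complex.exp w) * T.J y w) i j -
      (((-(2 * Real.pi)) ^ T.dim : ℂ) • T.χ.map (evZ y)) i j =
      ∑ b, ∑ a, pcE T (-y) (-((x : ℂ) + Real.pi * Complex.I)) a i *
        ((T.cal (-y) (Complex.exp (x + Real.pi * Complex.I))).transpose *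
          (th T (Real.pi * Complex.I) * T.g y) * T.cal y (Complex.exp x) -
          th T (Real.pi * Complex.I) * T.g y) a b * pcE T y (-(x : ℂ)) b j := by
    intro x
    rw [T.pair_const y w x, pc_P T hy x, ← pc_Q T hy x, ← Matrix.sub_apply, ← Matrix.sub_mul,
      ← Matrix.mul_sub, Matrix.mul_apply]
    refine Finset.sum_congr rfl fun b _ => ?_
    rw [Matrix.mul_apply, Finset.sum_mul]
    rfl
  have hlim : Tendsto (fun x : ℝ => ∑ b, ∑ a, pcE T (-y) (-((x : ℂ) + Real.pi * Complex.I)) a i *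
        ((T.cal (-y) (Complex.exp (x + Real.pi * Complex.I))).transpose *
          (th T (Real.pi * Complex.I) * T.g y) * T.cal y (Complex.exp x) -
          th T (Real.pi * Complex.I) * T.g y) a b * pcE T y (-(x : ℂ)) b j) atTop
          (𝓝 0) := by
    rw [show (0 : ℂ) = ∑ _b : Fin N, ∑ _a : Fin N, (0 : ℂ) by simp]
    refine tendsto_finsetSum _ fun b _ => tendsto_finsetSum _ fun a _ => ?_
    obtain ⟨C1, hC1, h1⟩ := hb2 a i
    obtain ⟨C2, hC2, h2⟩ := hb1 b j
    have h3 := ((pc_lim T hy a b).norm.const_mul C1).mul_const C2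
    rw [norm_zero, mul_zero, zero_mul] at h3
    refine squeeze_zero_norm (fun x => ?_) h3
    rw [norm_mul, norm_mul]
    exact mul_le_mul (mul_le_mul_of_nonneg_right (h1 x) (norm_nonneg _)) (h2 x) (norm_nonneg _)
      (mul_nonneg hC1 (norm_nonneg _))
  have h3 : Tendsto (fun _ : ℝ => ((T.J (-y) (w + Real.pi * Complex.I)).transpose *
      T.g (y * Complex.exp w) * T.J y w) i j -
      (((-(2 * Real.pi)) ^ T.dim : ℂ) • T.χ.map (evZ y)) i j) atTop (𝓝 0) :=
    hlim.congr fun x => (hP x).symm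
  exact sub_eq_zero.1 (tendsto_nhds_unique tendsto_const_nhds h3)

end Pool.Agent.FLG.Dl
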