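import Pool.Agent.FLG.D.DTh

/-!
# FLG-D-DPrH: homogeneity of the equivariant pairing
-/

open scoped BigOperators Topology
open Filter

namespace Pool.Agent.FLG.Dl

open Pool.Agent.DST Pool.Agent.FLG

variable {N : ℕ}

theorem GQ.pair_eval (T : GQ N) (l : ℂ) (a b : Fin N) :
    T.g (Complex.exp l) a b =
      Complex.exp (l * ((T.deg a : ℂ) + T.deg b - T.dim)) * T.g 1 a b := by
  have h := T.g_hom 1 l a b
  rwa [one_mul] at h

theorem GQ.pair_eval' (T : GQ N) {y : ℂ} (hy : y ≠ 0) (a b : Fin N) :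
    T.g y a b * y ^ T.dim = y ^ T.deg a * y ^ T.deg b * T.g 1 a b := by
  have h1 := T.pair_eval (Complex.log y) a b
  have h2 : ∀ n : ℕ, y ^ n = Complex.exp ((n : ℂ) * Complex.log y) := by
    intro n
    rw [Complex.exp_nat_mul, Complex.exp_log hy]
  rw [Complex.exp_log hy] at h1
  rw [h1, h2, h2, h2, ← Complex.exp_add, mul_right_comm, ← Complex.exp_add]
  congr 2
  ring

theorem GQ.pair_hom (T : GQ N) (l : ℂ) :
    th T l * T.g (Complex.exp l) * th T l = T.g 1 := by
  ext a b
  unfold th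
  rw [Matrix.mul_diagonal, Matrix.diagonal_mul, T.pair_eval]
  have h1 : Complex.exp (l * ((T.dim : ℂ) / 2 - T.deg a)) *
      Complex.exp (l * ((T.deg a : ℂ) + T.deg b - T.dim)) *
      Complex.exp (l * ((T.dim : ℂ) / 2 - T.deg b)) = 1 := by
    rw [← Complex.exp_add, ← Complex.exp_add, ← Complex.exp_zero]
    congr 1
    ring
  linear_combination (T.g 1 a b) * h1

theorem GQ.pair_deriv (T : GQ N) (y w : ℂ) (a b : Fin N) :
    HasDerivAt (fun w => T.g (y * Complex.exp w) a b)
      ((-(theta T * T.g (y * Complex.exp w) + T.g (y * Complex.exp w) * theta T)) a b)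
      w := by
  have h0 : (fun w => T.g (y * Complex.exp w) a b) = fun w =>
      Complex.exp (w * ((T.deg a : ℂ) + T.deg b - T.dim)) * T.g y a b := by
    funext w
    exact T.g_hom y w a b
  have h1 : HasDerivAt (fun w : ℂ => w * ((T.deg a : ℂ) + T.deg b - T.dim))
      (1 * ((T.deg a : ℂ) + T.deg b - T.dim)) w := (hasDerivAt_id w).mul_const _
  have h2 := h1.cexp.mul_const (T.g y a b)
  have h5 : ((-(theta T * T.g (y * Complex.exp w) +
      T.g (y * Complex.exp w) * theta T)) a b) =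
      Complex.exp (w * ((T.deg a : ℂ) + T.deg b - T.dim)) *
        (1 * ((T.deg a : ℂ) + T.deg b - T.dim)) * T.g y a b := by
    unfold theta
    rw [Matrix.neg_apply, Matrix.add_apply, Matrix.diagonal_mul, Matrix.mul_diagonal,
      T.g_hom y w a b]
    ring
  rw [h5, h0]
  exact h2

theorem GQ.pair_det (T : GQ N) (x : ℂ) : (T.g x).det ≠ 0 := T.g_det x

theorem GQ.pair_trans (T : GQ N) (x : ℂ) : (T.g x).transpose = T.g x := T.g_symm x

end Pool.Agent.FLG.Dl
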