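import Pool.Agent.FLG.D.DTh

/-!
# FLG-D-DRes: restrictions to the fixed points
-/

open scoped BigOperators Topology
open Filter

namespace Pool.Agent.FLG.Dl

open Pool.Agent.DST Pool.Agent.FLG

variable {N : ℕ}

theorem GQ.Ry_W (T : GQ N) (y : ℂ) :
    T.Ry y * T.Cg 0 y = Matrix.diagonal (fun p => (T.cw p : ℂ) * y) * T.Ry y := by
  ext p b
  rw [Matrix.mul_apply, Matrix.diagonal_mul]
  have h := T.res_C y p b
  have h4 : (T.cw p : ℂ) = ∑ k, (T.wt p k : ℂ) := by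
    unfold GQ.cw
    push_cast
    rfl
  show ∑ a, T.res p a * y ^ T.deg a * T.Cg 0 y a b = (T.cw p : ℂ) * y * (T.res p b * y ^ T.deg b)
  rw [h4]
  exact h

private theorem Ry_one (T : GQ N) : T.Ry 1 = T.Rm := by
  ext p a
  show T.res p a * 1 ^ T.deg a = T.res p a
  rw [one_pow, mul_one]

theorem GQ.Rm_W (T : GQ N) :
    T.Rm * T.W = Matrix.diagonal (fun p => (T.cw p : ℂ)) * T.Rm := by
  have h := T.Ry_W 1
  rw [Ry_one] at h
  simp only [mul_one] at h
  exact h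

theorem GQ.pair_one (T : GQ N) :
    T.g 1 = T.Rm.transpose * Matrix.diagonal (fun p => 1 / ∏ k, (T.wt p k : ℂ)) * T.Rm := by
  ext a b
  rw [Matrix.mul_apply, T.localization a b]
  refine Finset.sum_congr rfl fun p _ => ?_
  rw [Matrix.mul_diagonal]
  show _ = T.res p a * (1 / ∏ k, (T.wt p k : ℂ)) * T.res p b
  ring

theorem GQ.det_Rm (T : GQ N) : T.Rm.det ≠ 0 := by
  have h1 := T.g_det 1
  rw [T.pair_one, Matrix.det_mul, Matrix.det_mul, Matrix.det_transpose] at h1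
  exact (mul_ne_zero_iff.1 h1).2

theorem GQ.Ry_eq (T : GQ N) (y : ℂ) :
    T.Ry y = T.Rm * Matrix.diagonal (fun a => y ^ T.deg a) := by
  ext p a
  rw [Matrix.mul_diagonal]
  rfl

theorem GQ.det_Ry (T : GQ N) {y : ℂ} (hy : y ≠ 0) : (T.Ry y).det ≠ 0 := by
  rw [T.Ry_eq, Matrix.det_mul, Matrix.det_diagonal]
  exact mul_ne_zero T.det_Rm (Finset.prod_ne_zero_iff.2 fun a _ => pow_ne_zero _ hy)

end Pool.Agent.FLG.Dl
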