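import Pool.Agent.FLG.D.DDefs

/-!
# FLG-D-QDef: the quantum system attached to `GQ` (definition)
-/

open scoped BigOperators Topology
open Filter

namespace Pool.Agent.FLG.Dl

open Pool.Agent.DST Pool.Agent.FLG

variable {N : ℕ} {T : GQ N}

/-- The quantum system of the `Γ`-solutions. -/
structure IsQ (T : GQ N) (Q : QSys N) : Prop where
  Λ : Q.Λ = Set.univ
  θ : ∀ a, Q.θ a = (T.dim : ℂ) / 2 - T.deg a
  C : ∀ x, Q.C x = T.C x
  g : ∀ x, Q.g x = T.g x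
  S : ∀ x z, Q.S x z = T.S x z
  J : ∀ y w, Q.J y w = (Complex.I / (Real.sqrt (2 * Real.pi) : ℂ)) ^ T.dim • T.J y w
  χ : ∀ y, Q.χ.map (evq y) = T.χ.map (evZ y)

end Pool.Agent.FLG.Dl
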